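import Pool.Agent.TH708.Dec.Cover

set_option linter.unusedSectionVars false

/-!
# Counting the bad sets
-/

namespace Pool.Agent.TH708.Dec

open Finset

variable {V R : Type} [DecidableEq V] [Fintype V]

/-- `2 ^ (k / 2)`. -/
noncomputable def sq (k : ℕ) : ℝ := Real.sqrt (2 ^ k)

theorem sq_nonneg (k : ℕ) : 0 ≤ sq k := Real.sqrt_nonneg _

theorem sq_add (a b : ℕ) : sq (a + b) = sq a * sq b := by
  unfold sq
  rw [pow_add, Real.sqrt_mul (by positivity)]

theorem pow_le_sq {a b : ℕ} (h : 2 * a ≤ b) : (2 : ℝ) ^ a ≤ sq b := by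
  unfold sq
  apply Real.le_sqrt_of_sq_le
  rw [← pow_mul]
  exact pow_le_pow_right₀ (by norm_num) (by omega)

theorem sq_two_mul (k : ℕ) : sq (2 * k) = 2 ^ k := by
  unfold sq
  rw [mul_comm, pow_mul]
  exact Real.sqrt_sq (by positivity)

theorem one_le_sq (k : ℕ) : (1 : ℝ) ≤ sq k := by
  have := pow_le_sq (a := 0) (b := k) (by omega)
  simpa using this

theorem inter_sdiff_card (D Y : Finset V) : (D ∩ Y).card + (D \ Y).card = D.card :=
  card_inter_add_card_sdiff D Y

theorem rc_left (F : TF V R) (r : R) (D W Y : Finset V) (hF : TF.occ F ⊆ D) (hD : D ⊆ W) :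
    RC (fun x => TF.eval r x F = true) Y (W \ Y) (2 ^ (D ∩ Y).card) := by
  apply RC.triv
  · intro x x' hx h
    rw [← TF.eval_congr F r x x' fun i hi => hx i (hF hi)]
    exact h
  · intro i hi
    rw [mem_sdiff] at hi ⊢
    exact ⟨hD hi.1, hi.2⟩

theorem rc_right (F : TF V R) (r : R) (D W Y : Finset V) (hF : TF.occ F ⊆ D) (hD : D ⊆ W) :
    RC (fun x => TF.eval r x F = true) Y (W \ Y) (2 ^ (D \ Y).card) := by
  apply RC.symm
  have h : D ∩ (W \ Y) = D \ Y := by
    ext i
    simp only [mem_inter, mem_sdiff]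
    constructor
    · rintro ⟨h1, h2, h3⟩; exact ⟨h1, h3⟩
    · rintro ⟨h1, h2⟩; exact ⟨h1, hD h1, h2⟩
  rw [← h]
  apply RC.triv
  · intro x x' hx h
    rw [← TF.eval_congr F r x x' fun i hi => hx i (hF hi)]
    exact h
  · intro i hi
    rw [mem_sdiff, mem_sdiff] at hi
    by_contra hY
    exact hi.2 ⟨hD hi.1, hY⟩

theorem rc_half (F : TF V R) (r : R) (D W Y : Finset V) (hF : TF.occ F ⊆ D) (hD : D ⊆ W) :
    ∃ N : ℕ, (N : ℝ) ≤ sq D.card ∧ RC (fun x => TF.eval r x F = true) Y (W \ Y) N := by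
  have := inter_sdiff_card D Y
  rcases le_total (D ∩ Y).card (D \ Y).card with h | h
  · exact ⟨_, by push_cast; exact pow_le_sq (by omega), rc_left F r D W Y hF hD⟩
  · exact ⟨_, by push_cast; exact pow_le_sq (by omega), rc_right F r D W Y hF hD⟩

/-- The nearly balanced subsets. -/
def NB (τ : ℕ) (D : Finset V) : Finset (Finset V) :=
  D.powerset.filter fun T => 2 * T.card < D.card + 2 * τ ∧ D.card < 2 * T.card + 2 * τ

theorem rc_unbal (τ : ℕ) (F : TF V R) (r : R) (D W Y : Finset V) (hF : TF.occ F ⊆ D)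
    (hD : D ⊆ W) (hNB : D ∩ Y ∉ NB τ D) :
    ∃ N : ℕ, (N : ℝ) * 2 ^ τ ≤ sq D.card ∧
      RC (fun x => TF.eval r x F = true) Y (W \ Y) N := by
  have := inter_sdiff_card D Y
  have h : D.card + 2 * τ ≤ 2 * (D ∩ Y).card ∨ 2 * (D ∩ Y).card + 2 * τ ≤ D.card := by
    by_contra hc
    apply hNB
    rw [NB, mem_filter, mem_powerset]
    exact ⟨inter_subset_left, by omega, by omega⟩
  rcases h with h | h
  · refine ⟨_, ?_, rc_right F r D W Y hF hD⟩
    push_cast
    rw [← pow_add]
    exact pow_le_sq (by omega)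
  · refine ⟨_, ?_, rc_left F r D W Y hF hD⟩
    push_cast
    rw [← pow_add]
    exact pow_le_sq (by omega)

/-- Few rectangles suffice for the split `Y`, `W \ Y`. -/
def Cov (τ : ℕ) (F : TF V R) (W Y : Finset V) : Prop :=
  ∀ r : R, ∃ N : ℕ, (N : ℝ) * 2 ^ τ ≤ (TF.L F : ℝ) * sq W.card ∧
    RC (fun x => TF.eval r x F = true) Y (W \ Y) N

open Classical in
/-- The bad sets. -/
noncomputable def Bad (τ : ℕ) (F : TF V R) (W : Finset V) : Finset (Finset V) :=
  W.powerset.filter fun Y => ¬ Cov τ F W Y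

theorem mem_Bad {τ : ℕ} {F : TF V R} {W Y : Finset V} :
    Y ∈ Bad τ F W ↔ Y ⊆ W ∧ ¬ Cov τ F W Y := by
  classical
  rw [Bad, mem_filter, mem_powerset]

theorem bad_empty {τ : ℕ} {F : TF V R} {W : Finset V} (h : ∀ Y ⊆ W, Cov τ F W Y) :
    Bad τ F W = ∅ := by
  rw [eq_empty_iff_forall_notMem]
  intro Y hY
  rw [mem_Bad] at hY
  exact hY.2 (h Y hY.1)

theorem bad_le {τ : ℕ} {F : TF V R} {W : Finset V} : (Bad τ F W).card ≤ 2 ^ W.card := by
  rw [← card_powerset]
  apply card_le_card
  intro Y hY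
  exact mem_powerset.2 (mem_Bad.1 hY).1

theorem cov_of_L_zero (τ : ℕ) (F : TF V R) (W Y : Finset V) (h : TF.L F = 0) :
    Cov τ F W Y := by
  intro r
  refine ⟨0, ?_, RC.of_false _ _ fun x => ?_⟩
  · simp [h]
  · simp [TF.eval_of_L_zero F h r x]

theorem cov_of_small (τ : ℕ) (F : TF V R) (W Y : Finset V) (hF : TF.occ F ⊆ W)
    (h : (TF.occ F).card + 2 * τ ≤ W.card) : Cov τ F W Y := by
  by_cases h0 : TF.L F = 0
  · exact cov_of_L_zero τ F W Y h0
  intro r
  obtain ⟨N, hN, hRC⟩ := rc_half F r (TF.occ F) W Y Subset.rfl hF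
  refine ⟨N, ?_, hRC⟩
  have h1 : (1 : ℝ) ≤ TF.L F := by exact_mod_cast Nat.one_le_iff_ne_zero.2 h0
  calc (N : ℝ) * 2 ^ τ ≤ sq (TF.occ F).card * sq (2 * τ) := by
        rw [sq_two_mul]
        exact mul_le_mul_of_nonneg_right hN (by positivity)
    _ = sq ((TF.occ F).card + 2 * τ) := (sq_add _ _).symm
    _ ≤ sq W.card := by
        unfold sq
        exact Real.sqrt_le_sqrt (pow_le_pow_right₀ (by norm_num) h)
    _ ≤ (TF.L F : ℝ) * sq W.card := le_mul_of_one_le_left (sq_nonneg _) h1

/-- The recurrence for covers. -/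
theorem cov_step (τ : ℕ) (F F₀ u S : TF V R) (W Y : Finset V) (hW : TF.occ F ⊆ W)
    (hval : ∀ r x, TF.eval r x F = (TF.eval r x F₀ || (TF.eval r x u && TF.eval r x S)))
    (hL : TF.L F₀ + TF.L u ≤ TF.L F) (hu : (TF.occ u).Nonempty)
    (hdeg : ∀ i, TF.deg i u + TF.deg i S ≤ TF.deg i F) (hd : ∀ i, TF.deg i F ≤ 1)
    (h0 : Cov τ F₀ W Y)
    (h1 : (W \ TF.occ u) ∩ Y ∉ NB τ (W \ TF.occ u) ∨ Cov τ u (TF.occ u) (TF.occ u ∩ Y)) :
    Cov τ F W Y := by
  intro r
  have huW : TF.occ u ⊆ W := by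
    intro i hi
    apply hW
    rw [TF.mem_occ] at hi ⊢
    have := hdeg i
    omega
  have hSW : TF.occ S ⊆ W \ TF.occ u := by
    intro i hi
    rw [TF.mem_occ] at hi
    rw [mem_sdiff, TF.mem_occ]
    refine ⟨hW ?_, ?_⟩
    · rw [TF.mem_occ]
      have := hdeg i
      omega
    · have := hdeg i
      have := hd i
      omega
  have hcard : (TF.occ u).card + (W \ TF.occ u).card = W.card := by
    rw [card_sdiff_of_subset huW]
    have := card_le_card huW
    omega
  have hLu : (1 : ℝ) ≤ TF.L u := by exact_mod_cast TF.one_le_L_of_occ u hu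
  obtain ⟨N₀, hN₀, hRC₀⟩ := h0 r
  have key : ∃ N : ℕ, (N : ℝ) * 2 ^ τ ≤ (TF.L u : ℝ) * sq W.card ∧
      RC (fun x => TF.eval r x u = true ∧ TF.eval r x S = true) Y (W \ Y) N := by
    rcases h1 with h1 | h1
    · obtain ⟨N, hN, hRC⟩ := rc_unbal τ S r (W \ TF.occ u) W Y hSW sdiff_subset h1
      obtain ⟨M, hM, hRC'⟩ := rc_half u r (TF.occ u) W Y Subset.rfl huW
      refine ⟨M * N, ?_, hRC'.and hRC⟩
      push_cast
      calc (M : ℝ) * N * 2 ^ τ = M * (N * 2 ^ τ) := by ring
        _ ≤ sq (TF.occ u).card * sq (W \ TF.occ u).card :=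
            mul_le_mul hM hN (by positivity) (sq_nonneg _)
        _ = sq W.card := by rw [← sq_add, hcard]
        _ ≤ (TF.L u : ℝ) * sq W.card := le_mul_of_one_le_left (sq_nonneg _) hLu
    · obtain ⟨M, hM, hRC'⟩ := h1 r
      obtain ⟨N, hN, hRC⟩ := rc_half S r (W \ TF.occ u) W Y hSW sdiff_subset
      refine ⟨M * N, ?_, RC.and (hRC'.mono inter_subset_right ?_ le_rfl) hRC⟩
      · push_cast
        calc (M : ℝ) * N * 2 ^ τ = (M * 2 ^ τ) * N := by ring
          _ ≤ ((TF.L u : ℝ) * sq (TF.occ u).card) * sq (W \ TF.occ u).card :=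
              mul_le_mul hM hN (by positivity) (mul_nonneg (by positivity) (sq_nonneg _))
          _ = (TF.L u : ℝ) * sq W.card := by rw [mul_assoc, ← sq_add, hcard]
      · intro i hi
        rw [mem_sdiff, mem_inter] at hi
        rw [mem_sdiff]
        exact ⟨huW hi.1, fun hY => hi.2 ⟨hi.1, hY⟩⟩
  obtain ⟨N₁, hN₁, hRC₁⟩ := key
  refine ⟨N₀ + N₁, ?_, (hRC₀.or hRC₁).congr fun x => ?_⟩
  · push_cast
    have hL' : (TF.L F₀ : ℝ) + TF.L u ≤ TF.L F := by exact_mod_cast hL
    calc ((N₀ : ℝ) + N₁) * 2 ^ τ = N₀ * 2 ^ τ + N₁ * 2 ^ τ := by ring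
      _ ≤ (TF.L F₀ : ℝ) * sq W.card + (TF.L u : ℝ) * sq W.card := add_le_add hN₀ hN₁
      _ = ((TF.L F₀ : ℝ) + TF.L u) * sq W.card := by ring
      _ ≤ (TF.L F : ℝ) * sq W.card := mul_le_mul_of_nonneg_right hL' (sq_nonneg _)
  · rw [hval r x, Bool.or_eq_true, Bool.and_eq_true]

/-- **Counting.** -/
theorem bad_card (τ t q : ℕ) (hτ : 2 * τ ≤ t) (ht : 1 ≤ t)
    (hNB : ∀ D : Finset V, t ≤ D.card → (NB τ D).card * q ≤ 2 ^ D.card) :
    ∀ (lev : ℕ) (l : ℕ) (F : TF V R), TF.L F = l → (∀ i, TF.deg i F ≤ 1) →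
      ∀ W : Finset V, TF.occ F ⊆ W → 3 ^ lev * t ≤ W.card →
      (Bad τ F W).card * q ^ lev ≤ TF.L F * 2 ^ W.card := by
  intro lev
  induction lev with
  | zero =>
    intro l F _ _ W _ _
    by_cases h0 : TF.L F = 0
    · have : Bad τ F W = ∅ := bad_empty fun Y _ => cov_of_L_zero τ F W Y h0
      simp [this]
    · have h1 : (Bad τ F W).card ≤ 2 ^ W.card := bad_le
      rw [pow_zero, mul_one]
      exact h1.trans (Nat.le_mul_of_pos_left _ (Nat.pos_of_ne_zero h0))
  | succ lev ih =>
    intro l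
    induction l using Nat.strong_induction_on with
    | _ l ihl =>
      intro F hFl hd W hW hcard
      have h3 : 3 ^ lev * t ≥ t := Nat.le_mul_of_pos_left _ (by positivity)
      have hcard' : 3 * (3 ^ lev * t) ≤ W.card := by
        rw [← mul_assoc, mul_comm 3, ← pow_succ]; exact hcard
      by_cases hsm : 3 * (TF.occ F).card ≤ 2 * W.card
      · have : Bad τ F W = ∅ := bad_empty fun Y _ => cov_of_small τ F W Y hW (by omega)
        simp [this]
      · obtain ⟨F₀, u, S, h1, h2, h3', h4, h5, h6⟩ := TF.split W.card (by omega) F hd (by omega)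
        have hu : (TF.occ u).Nonempty := by
          rw [← card_pos]; omega
        have hLu := TF.one_le_L_of_occ u hu
        have huW : TF.occ u ⊆ W := by
          intro i hi
          apply hW
          rw [TF.mem_occ] at hi ⊢
          have := h4 i
          omega
        have hcd : (W \ TF.occ u).card = W.card - (TF.occ u).card := card_sdiff_of_subset huW
        have hF₀W : TF.occ F₀ ⊆ W := by
          intro i hi
          apply hW
          rw [TF.mem_occ] at hi ⊢
          have := h3' i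
          omega
        have hb₀ := ihl (TF.L F₀) (by omega) F₀ rfl (fun i => (h3' i).trans (hd i)) W hF₀W hcard
        have hbu := ih (TF.L u) u rfl (fun i => by have := h4 i; have := hd i; omega)
          (TF.occ u) Subset.rfl (by omega)
        have hnb := hNB (W \ TF.occ u) (by omega)
        -- the inclusion
        have hincl : (Bad τ F W).card ≤ (Bad τ F₀ W).card +
            (NB τ (W \ TF.occ u)).card * (Bad τ u (TF.occ u)).card := by
          have hsub : Bad τ F W ⊆ Bad τ F₀ W ∪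
              ((Bad τ F W).filter fun Y => (W \ TF.occ u) ∩ Y ∈ NB τ (W \ TF.occ u) ∧
                TF.occ u ∩ Y ∈ Bad τ u (TF.occ u)) := by
            intro Y hY
            have hY' := hY
            rw [mem_Bad] at hY'
            rw [mem_union, mem_filter]
            by_cases h0 : Cov τ F₀ W Y
            · right
              refine ⟨hY, ?_, ?_⟩
              · by_contra hc
                exact hY'.2 (cov_step τ F F₀ u S W Y hW h1 h2 hu h4 hd h0 (Or.inl hc))
              · rw [mem_Bad]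
                refine ⟨inter_subset_left, fun hc => ?_⟩
                exact hY'.2 (cov_step τ F F₀ u S W Y hW h1 h2 hu h4 hd h0 (Or.inr hc))
            · left
              rw [mem_Bad]
              exact ⟨hY'.1, h0⟩
          refine (card_le_card hsub).trans ((card_union_le _ _).trans ?_)
          apply Nat.add_le_add_left
          rw [← card_product]
          apply card_le_card_of_injOn (fun Y => ((W \ TF.occ u) ∩ Y, TF.occ u ∩ Y))
          · intro Y hY
            rw [mem_coe, mem_filter] at hY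
            rw [mem_coe, mem_product]
            exact hY.2
          · intro Y hY Y' hY' he
            rw [mem_coe, mem_filter, mem_Bad] at hY hY'
            rw [Prod.mk.injEq] at he
            ext i
            by_cases hiu : i ∈ TF.occ u
            · have := congrArg (fun T => i ∈ T) he.2
              simp only [mem_inter, hiu, true_and] at this
              rw [this]
            · by_cases hiW : i ∈ W
              · have := congrArg (fun T => i ∈ T) he.1
                simp only [mem_inter, mem_sdiff, hiu, hiW, not_false_eq_true, true_and] at this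
                rw [this]
              · constructor
                · intro h; exact absurd (hY.1.1 h) hiW
                · intro h; exact absurd (hY'.1.1 h) hiW
        calc (Bad τ F W).card * q ^ (lev + 1)
            ≤ ((Bad τ F₀ W).card +
                (NB τ (W \ TF.occ u)).card * (Bad τ u (TF.occ u)).card) * q ^ (lev + 1) :=
              Nat.mul_le_mul_right _ hincl
          _ = (Bad τ F₀ W).card * q ^ (lev + 1) +
                ((NB τ (W \ TF.occ u)).card * q) *
                  ((Bad τ u (TF.occ u)).card * q ^ lev) := by ring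
          _ ≤ TF.L F₀ * 2 ^ W.card +
                2 ^ (W \ TF.occ u).card * (TF.L u * 2 ^ (TF.occ u).card) :=
              Nat.add_le_add hb₀ (Nat.mul_le_mul hnb hbu)
          _ = (TF.L F₀ + TF.L u) * 2 ^ W.card := by
              have : 2 ^ W.card = 2 ^ (W \ TF.occ u).card * 2 ^ (TF.occ u).card := by
                rw [← pow_add]; congr 1
                have := card_le_card huW
                omega
              rw [this]; ring
          _ ≤ TF.L F * 2 ^ W.card := Nat.mul_le_mul_right _ h2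

theorem exists_good (τ t q lev k : ℕ) (hV : Fintype.card V = 2 * k) (hk : 0 < k)
    (hτ : 2 * τ ≤ t) (ht : 1 ≤ t)
    (hNB : ∀ D : Finset V, t ≤ D.card → (NB τ D).card * q ≤ 2 ^ D.card)
    (hlev : 3 ^ lev * t ≤ 2 * k) (F : TF V R) (hd : ∀ i, TF.deg i F ≤ 1)
    (hL : TF.L F * (2 * k) < q ^ lev) :
    ∃ Y : Finset V, Y.card = k ∧ ∀ r : R, ∃ N : ℕ, (N : ℝ) * 2 ^ τ ≤ TF.L F * 2 ^ k ∧
      RC (fun x => TF.eval r x F = true) Y Yᶜ N := by
  classical
  have hbad := bad_card τ t q hτ ht hNB lev _ F rfl hd univ (subset_univ _)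
    (by rw [card_univ, hV]; exact hlev)
  rw [card_univ, hV] at hbad
  by_contra hcon
  have hall : powersetCard k (univ : Finset V) ⊆ Bad τ F univ := by
    intro Y hY
    rw [mem_powersetCard] at hY
    rw [mem_Bad]
    refine ⟨hY.1, fun hc => hcon ⟨Y, hY.2, fun r => ?_⟩⟩
    obtain ⟨N, hN, hRC⟩ := hc r
    rw [card_univ, hV, sq_two_mul] at hN
    refine ⟨N, hN, ?_⟩
    rw [compl_eq_univ_sdiff]
    exact hRC
  have hc := card_le_card hall
  rw [card_powersetCard, card_univ, hV] at hc
  have hcb := Nat.four_pow_le_two_mul_self_mul_centralBinom k hk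
  rw [Nat.centralBinom_eq_two_mul_choose] at hcb
  have h4 : 2 ^ (2 * k) = 4 ^ k := by rw [pow_mul]; norm_num
  rw [h4] at hbad
  have hq : 4 ^ k * q ^ lev ≤ 4 ^ k * (TF.L F * (2 * k)) := by
    calc 4 ^ k * q ^ lev ≤ (2 * k * (2 * k).choose k) * q ^ lev := Nat.mul_le_mul_right _ hcb
      _ ≤ (2 * k * (Bad τ F univ).card) * q ^ lev :=
          Nat.mul_le_mul_right _ (Nat.mul_le_mul_left _ hc)
      _ = 2 * k * ((Bad τ F univ).card * q ^ lev) := by ring
      _ ≤ 2 * k * (TF.L F * 4 ^ k) := Nat.mul_le_mul_left _ hbad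
      _ = 4 ^ k * (TF.L F * (2 * k)) := by ring
  have := Nat.le_of_mul_le_mul_left hq (by positivity)
  omega

end Pool.Agent.TH708.Dec
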