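import Pool.Agent.TH708.Dec.Bad

set_option linter.unusedSectionVars false

/-!
# Few sets are nearly balanced
-/

namespace Pool.Agent.TH708.Dec

open Finset

theorem centralBinom_sq (k : ℕ) : (Nat.centralBinom k) ^ 2 * (3 * k + 1) ≤ 16 ^ k := by
  induction k with
  | zero => simp
  | succ k ih =>
    have h := Nat.succ_mul_centralBinom_succ k
    have h1 : (k + 1) ^ 2 * ((Nat.centralBinom (k + 1)) ^ 2 * (3 * (k + 1) + 1)) ≤
        (k + 1) ^ 2 * 16 ^ (k + 1) := by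
      calc (k + 1) ^ 2 * ((Nat.centralBinom (k + 1)) ^ 2 * (3 * (k + 1) + 1))
          = ((k + 1) * Nat.centralBinom (k + 1)) ^ 2 * (3 * k + 4) := by ring
        _ = (2 * (2 * k + 1) * Nat.centralBinom k) ^ 2 * (3 * k + 4) := by rw [h]
        _ = (4 * ((2 * k + 1) ^ 2 * (3 * k + 4))) * (Nat.centralBinom k) ^ 2 := by ring
        _ ≤ (4 * (4 * (k + 1) ^ 2 * (3 * k + 1))) * (Nat.centralBinom k) ^ 2 := by
            apply Nat.mul_le_mul_right
            apply Nat.mul_le_mul_left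
            nlinarith
        _ = 16 * (k + 1) ^ 2 * ((Nat.centralBinom k) ^ 2 * (3 * k + 1)) := by ring
        _ ≤ 16 * (k + 1) ^ 2 * 16 ^ k := Nat.mul_le_mul_left _ ih
        _ = (k + 1) ^ 2 * 16 ^ (k + 1) := by ring
    exact Nat.le_of_mul_le_mul_left h1 (by positivity)

theorem choose_half_sq (n : ℕ) : (n.choose (n / 2)) ^ 2 * n ≤ 4 ^ n := by
  obtain ⟨k, hk | hk⟩ := Nat.even_or_odd' n
  · subst hk
    have h := centralBinom_sq k
    rw [Nat.centralBinom_eq_two_mul_choose] at h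
    have h2 : 2 * k / 2 = k := by omega
    rw [h2]
    calc ((2 * k).choose k) ^ 2 * (2 * k) ≤ ((2 * k).choose k) ^ 2 * (3 * k + 1) :=
          Nat.mul_le_mul_left _ (by omega)
      _ ≤ 16 ^ k := h
      _ = 4 ^ (2 * k) := by rw [pow_mul]; norm_num
  · subst hk
    have h := centralBinom_sq (k + 1)
    rw [Nat.centralBinom_eq_two_mul_choose] at h
    have h2 : (2 * k + 1) / 2 = k := by omega
    have h3 : (2 * (k + 1)).choose (k + 1) = 2 * (2 * k + 1).choose k := by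
      have : 2 * (k + 1) = (2 * k + 1) + 1 := by ring
      rw [this, Nat.choose_succ_succ', Nat.choose_symm_half]; ring
    rw [h3] at h
    rw [h2]
    have h4 : 4 * (((2 * k + 1).choose k) ^ 2 * (2 * k + 1)) ≤ 4 * 4 ^ (2 * k + 1) := by
      calc 4 * (((2 * k + 1).choose k) ^ 2 * (2 * k + 1))
          = (2 * (2 * k + 1).choose k) ^ 2 * (2 * k + 1) := by ring
        _ ≤ (2 * (2 * k + 1).choose k) ^ 2 * (3 * (k + 1) + 1) :=
            Nat.mul_le_mul_left _ (by omega)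
        _ ≤ 16 ^ (k + 1) := h
        _ = 4 * 4 ^ (2 * k + 1) := by
            rw [← pow_succ']
            rw [show 2 * k + 1 + 1 = 2 * (k + 1) by ring, pow_mul]; norm_num
    exact Nat.le_of_mul_le_mul_left h4 (by norm_num)

variable {V : Type} [DecidableEq V] [Fintype V]

theorem nb_card (τ : ℕ) (D : Finset V) (h : 16 * τ ^ 4 ≤ D.card) :
    (NB τ D).card * (2 * τ) ≤ 2 ^ D.card := by
  set n := D.card with hn
  set J := (range (n + 1)).filter fun j => 2 * j < n + 2 * τ ∧ n < 2 * j + 2 * τ with hJ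
  have hJc : J.card ≤ 2 * τ := by
    have : J.card ≤ (Icc (n / 2 + 1) (n / 2 + 2 * τ)).card := by
      apply card_le_card_of_injOn (fun j => j + τ)
      · intro j hj
        rw [mem_coe, hJ, mem_filter] at hj
        rw [mem_coe, mem_Icc]
        constructor
        · show n / 2 + 1 ≤ j + τ
          omega
        · show j + τ ≤ n / 2 + 2 * τ
          omega
      · intro a _ b _ hab
        exact Nat.add_right_cancel hab
    rw [Nat.card_Icc] at this
    omega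
  have hsub : NB τ D ⊆ J.biUnion fun j => powersetCard j D := by
    intro T hT
    rw [NB, mem_filter, mem_powerset] at hT
    rw [mem_biUnion]
    refine ⟨T.card, ?_, ?_⟩
    · rw [hJ, mem_filter, mem_range]
      have := card_le_card hT.1
      exact ⟨by omega, hT.2.1, hT.2.2⟩
    · rw [mem_powersetCard]; exact ⟨hT.1, rfl⟩
  have hcard : (NB τ D).card ≤ 2 * τ * n.choose (n / 2) := by
    refine (card_le_card hsub).trans (card_biUnion_le.trans ?_)
    refine (sum_le_card_nsmul _ _ (n.choose (n / 2)) ?_).trans ?_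
    · intro j _
      rw [card_powersetCard]
      exact Nat.choose_le_middle _ _
    · rw [smul_eq_mul]
      exact Nat.mul_le_mul_right _ hJc
  have hsq : ((NB τ D).card * (2 * τ)) ^ 2 ≤ (2 ^ n) ^ 2 := by
    calc ((NB τ D).card * (2 * τ)) ^ 2 ≤ (2 * τ * n.choose (n / 2) * (2 * τ)) ^ 2 :=
          Nat.pow_le_pow_left (Nat.mul_le_mul_right _ hcard) 2
      _ = (n.choose (n / 2)) ^ 2 * (16 * τ ^ 4) := by ring
      _ ≤ (n.choose (n / 2)) ^ 2 * n := Nat.mul_le_mul_left _ h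
      _ ≤ 4 ^ n := choose_half_sq n
      _ = (2 ^ n) ^ 2 := by rw [← pow_mul, mul_comm, pow_mul]; norm_num
  exact le_of_sq_le_sq hsq
  where le_of_sq_le_sq {a b : ℕ} (h : a ^ 2 ≤ b ^ 2) : a ≤ b := (Nat.pow_le_pow_iff_left (by norm_num)).1 h

/-- **The lower bound for tracked formulas.** -/
theorem tracked_lower {R : Type} (r : ℕ) (hr : 8 ≤ r) (hV : Fintype.card V = 2 ^ (11 * r + 4))
    (F : TF V R) (hd : ∀ i, TF.deg i F ≤ 1) (d : ℕ) (hL : TF.L F ≤ 2 ^ d)
    (hf : ∀ Y : Finset V, Y.card = 2 ^ (11 * r + 3) → ∃ (ρ : R) (π : V → V),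
      (∀ y ∈ Y, π y ∉ Y) ∧ Set.InjOn π Y ∧
      ∀ x : V → Bool, TF.eval ρ x F = true ↔ ∀ y ∈ Y, x y = x (π y)) :
    3 * r ^ 2 ≤ d := by
  by_contra hcon
  have h2r : 4 * r ^ 2 ≤ 2 ^ r := by
    clear hV hf hcon hL
    induction r, hr using Nat.le_induction with
    | base => norm_num
    | succ r hr ih =>
      rw [pow_succ 2 r]
      have : 4 * (r + 1) ^ 2 ≤ 2 * (4 * r ^ 2) := by nlinarith
      omega
  have hd' : d + (11 * r + 4) < 4 * r * (r + 1) := by nlinarith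
  have hcard : Fintype.card V = 2 * 2 ^ (11 * r + 3) := by
    rw [hV, ← pow_succ']
  have hLq : TF.L F * (2 * 2 ^ (11 * r + 3)) < (2 * 2 ^ r) ^ (4 * r) := by
    calc TF.L F * (2 * 2 ^ (11 * r + 3)) ≤ 2 ^ d * (2 * 2 ^ (11 * r + 3)) :=
          Nat.mul_le_mul_right _ hL
      _ = 2 ^ (d + (11 * r + 4)) := by
          rw [← pow_succ', ← pow_add]
      _ < 2 ^ (4 * r * (r + 1)) := Nat.pow_lt_pow_right (by norm_num) hd'
      _ = (2 * 2 ^ r) ^ (4 * r) := by
          rw [← pow_succ', ← pow_mul]; congr 1; ring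
  have hlev : 3 ^ (4 * r) * (16 * (2 ^ r) ^ 4) ≤ 2 * 2 ^ (11 * r + 3) := by
    calc 3 ^ (4 * r) * (16 * (2 ^ r) ^ 4) = 16 * 1296 ^ r := by
          rw [pow_mul, ← pow_mul 2 r 4, mul_comm r 4, pow_mul 2 4 r]
          rw [show (1296 : ℕ) = 3 ^ 4 * 2 ^ 4 by norm_num, mul_pow]; ring
      _ ≤ 16 * 2048 ^ r := Nat.mul_le_mul_left _ (Nat.pow_le_pow_left (by norm_num) r)
      _ = 2 * 2 ^ (11 * r + 3) := by
          rw [show (2048 : ℕ) = 2 ^ 11 by norm_num, ← pow_mul, pow_add]; ring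
  obtain ⟨Y, hY, hcov⟩ := exists_good (2 ^ r) (16 * (2 ^ r) ^ 4) (2 * 2 ^ r) (4 * r)
    (2 ^ (11 * r + 3)) hcard (by positivity) (by
      have : 1 ≤ 2 ^ r := Nat.one_le_two_pow
      calc 2 * 2 ^ r ≤ 16 * (2 ^ r) := by omega
        _ ≤ 16 * (2 ^ r) ^ 4 := Nat.mul_le_mul_left _ (Nat.le_self_pow (by norm_num) _)) (by
      have : 1 ≤ (2 ^ r) ^ 4 := Nat.one_le_pow _ _ (by positivity)
      omega) (fun D hD => nb_card _ D hD) hlev F hd hLq
  obtain ⟨ρ, π, hπ, hinj, hval⟩ := hf Y hY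
  obtain ⟨N, hN, hRC⟩ := hcov ρ
  have hfool := hRC.fooling π disjoint_compl_right (fun y hy => mem_compl.2 (hπ y hy)) hinj hval
  rw [hY] at hfool
  have h1 : (2 : ℝ) ^ (2 ^ (11 * r + 3)) ≤ N := by exact_mod_cast hfool
  have h2 : (2 : ℝ) ^ (2 ^ (11 * r + 3)) * 2 ^ (2 ^ r) ≤ TF.L F * 2 ^ (2 ^ (11 * r + 3)) :=
    (mul_le_mul_of_nonneg_right h1 (by positivity)).trans hN
  have h3 : (2 : ℝ) ^ (2 ^ r) ≤ TF.L F := by
    rw [mul_comm] at h2
    exact le_of_mul_le_mul_right h2 (by positivity)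
  have h4 : (2 : ℕ) ^ (2 ^ r) ≤ 2 ^ d := by
    have : (2 : ℕ) ^ (2 ^ r) ≤ TF.L F := by exact_mod_cast h3
    exact this.trans hL
  have h5 := (Nat.pow_le_pow_iff_right (by norm_num : 1 < 2)).1 h4
  nlinarith

end Pool.Agent.TH708.Dec
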