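import Mathlib

set_option linter.unusedSectionVars false

/-!
# Tracked formulas, rectangle covers, and the splitting lemma
-/

namespace Pool.Agent.TH708.Dec

open Finset

/-- A formula whose leaves are literals of tracked variables `V`, arbitrary functions of a side
input `R`, or the constant false. -/
inductive TF (V R : Type) : Type
  | lit (i : V) (b : Bool)
  | side (g : R → Bool)
  | fls
  | and (F G : TF V R)
  | or (F G : TF V R)

namespace TF

variable {V R : Type} [DecidableEq V]

/-- The value. -/
def eval (r : R) (x : V → Bool) : TF V R → Bool
  | lit i b => x i == b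
  | side g => g r
  | fls => false
  | and F G => eval r x F && eval r x G
  | or F G => eval r x F || eval r x G

/-- The number of leaves that are not the constant false. -/
def L : TF V R → ℕ
  | lit _ _ => 1
  | side _ => 1
  | fls => 0
  | and F G => L F + L G
  | or F G => L F + L G

/-- The formal degree in a tracked variable. -/
def deg (i : V) : TF V R → ℕ
  | lit j _ => if j = i then 1 else 0
  | side _ => 0
  | fls => 0
  | and F G => deg i F + deg i G
  | or F G => max (deg i F) (deg i G)

/-- The tracked variables that are read. -/
def occ [Fintype V] (F : TF V R) : Finset V := univ.filter fun i => 1 ≤ deg i F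

variable [Fintype V]

theorem mem_occ {F : TF V R} {i : V} : i ∈ occ F ↔ 1 ≤ deg i F := by simp [occ]

theorem occ_or (F G : TF V R) : occ (or F G) = occ F ∪ occ G := by
  ext i; simp [mem_occ, deg]

theorem occ_and (F G : TF V R) : occ (and F G) = occ F ∪ occ G := by
  ext i; simp only [mem_occ, deg, mem_union]; omega

theorem occ_fls : occ (fls : TF V R) = ∅ := by
  ext i; simp [mem_occ, deg]

theorem card_occ_lit (i : V) (b : Bool) : (occ (lit i b : TF V R)).card ≤ 1 := by
  have : occ (lit i b : TF V R) ⊆ {i} := by
    intro j hj
    rw [mem_occ] at hj
    simp only [deg] at hj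
    by_contra h
    rw [mem_singleton] at h
    rw [if_neg (fun h' => h h'.symm)] at hj
    omega
  exact (card_le_card this).trans (by simp)

theorem occ_side (g : R → Bool) : occ (side g : TF V R) = ∅ := by
  ext i; simp [mem_occ, deg]

theorem eval_congr (F : TF V R) (r : R) (x y : V → Bool) (h : ∀ i ∈ occ F, x i = y i) :
    eval r x F = eval r y F := by
  induction F with
  | lit i b => simp only [eval]; rw [h i (by simp [mem_occ, deg])]
  | side g => rfl
  | fls => rfl
  | and F G ihF ihG =>
    simp only [eval]
    rw [ihF fun i hi => h i (by rw [occ_and]; exact mem_union_left _ hi),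
      ihG fun i hi => h i (by rw [occ_and]; exact mem_union_right _ hi)]
  | or F G ihF ihG =>
    simp only [eval]
    rw [ihF fun i hi => h i (by rw [occ_or]; exact mem_union_left _ hi),
      ihG fun i hi => h i (by rw [occ_or]; exact mem_union_right _ hi)]

theorem eval_of_L_zero (F : TF V R) (h : L F = 0) (r : R) (x : V → Bool) :
    eval r x F = false := by
  induction F with
  | lit i b => simp [L] at h
  | side g => simp [L] at h
  | fls => rfl
  | and F G ihF ihG =>
    simp only [L] at h
    simp [eval, ihF (by omega)]
  | or F G ihF ihG =>
    simp only [L] at h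
    simp [eval, ihF (by omega), ihG (by omega)]

theorem one_le_L_of_occ (F : TF V R) (h : (occ F).Nonempty) : 1 ≤ L F := by
  induction F with
  | lit i b => simp [L]
  | side g => simp [L]
  | fls => simp [occ_fls] at h
  | and F G ihF ihG =>
    simp only [L]
    rw [occ_and, union_nonempty] at h
    rcases h with h | h
    · have := ihF h; omega
    · have := ihG h; omega
  | or F G ihF ihG =>
    simp only [L]
    rw [occ_or, union_nonempty] at h
    rcases h with h | h
    · have := ihF h; omega
    · have := ihG h; omega

/-- **Splitting.**  A formula of formal degree at most one that reads more than `2K/3` variables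
has a subformula `u` reading between `K/3` and `2K/3` of them, and
`F = F₀ ∨ (u ∧ S)` with `S` reading none of the variables of `u`. -/
theorem split (K : ℕ) (hK : 2 ≤ K) (F : TF V R) (hd : ∀ i, deg i F ≤ 1)
    (hF : 2 * K < 3 * (occ F).card) :
    ∃ F₀ u S : TF V R,
      (∀ r x, eval r x F = (eval r x F₀ || (eval r x u && eval r x S))) ∧
      L F₀ + L u ≤ L F ∧
      (∀ i, deg i F₀ ≤ deg i F) ∧
      (∀ i, deg i u + deg i S ≤ deg i F) ∧
      K < 3 * (occ u).card ∧ 3 * (occ u).card ≤ 2 * K := by
  induction F with
  | lit i b =>
    have := card_occ_lit (R := R) i b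
    omega
  | side g => rw [occ_side] at hF; simp at hF
  | fls => rw [occ_fls] at hF; simp at hF
  | or F G ihF ihG =>
    have hdF : ∀ i, deg i F ≤ 1 := fun i => by
      have := hd i; simp only [deg] at this; omega
    have hdG : ∀ i, deg i G ≤ 1 := fun i => by
      have := hd i; simp only [deg] at this; omega
    rw [occ_or] at hF
    have hcard := card_union_le (occ F) (occ G)
    rcases le_total (occ G).card (occ F).card with hle | hle
    · by_cases hs : 3 * (occ F).card ≤ 2 * K
      · refine ⟨or fls G, F, side (fun _ => true), ?_, ?_, ?_, ?_, ?_, hs⟩
        · intro r x; simp only [eval]; cases eval r x F <;> cases eval r x G <;> rfl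
        · simp only [L]; omega
        · intro i; simp only [deg]; omega
        · intro i; simp only [deg]; omega
        · omega
      · obtain ⟨F₀, u, S, h1, h2, h3, h4, h5, h6⟩ := ihF hdF (by omega)
        refine ⟨or F₀ G, u, S, ?_, ?_, ?_, ?_, h5, h6⟩
        · intro r x; simp only [eval, h1 r x]
          cases eval r x F₀ <;> cases eval r x G <;> simp
        · simp only [L]; omega
        · intro i; have := h3 i; simp only [deg]; omega
        · intro i; have := h4 i; simp only [deg]; omega
    · by_cases hs : 3 * (occ G).card ≤ 2 * K
      · refine ⟨or fls F, G, side (fun _ => true), ?_, ?_, ?_, ?_, ?_, hs⟩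
        · intro r x; simp only [eval]; cases eval r x F <;> cases eval r x G <;> rfl
        · simp only [L]; omega
        · intro i; simp only [deg]; omega
        · intro i; simp only [deg]; omega
        · omega
      · obtain ⟨F₀, u, S, h1, h2, h3, h4, h5, h6⟩ := ihG hdG (by omega)
        refine ⟨or F₀ F, u, S, ?_, ?_, ?_, ?_, h5, h6⟩
        · intro r x; simp only [eval, h1 r x]
          cases eval r x F₀ <;> cases eval r x F <;> simp
        · simp only [L]; omega
        · intro i; have := h3 i; simp only [deg]; omega
        · intro i; have := h4 i; simp only [deg]; omega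
  | and F G ihF ihG =>
    have hdF : ∀ i, deg i F ≤ 1 := fun i => by
      have := hd i; simp only [deg] at this; omega
    have hdG : ∀ i, deg i G ≤ 1 := fun i => by
      have := hd i; simp only [deg] at this; omega
    rw [occ_and] at hF
    have hcard := card_union_le (occ F) (occ G)
    rcases le_total (occ G).card (occ F).card with hle | hle
    · by_cases hs : 3 * (occ F).card ≤ 2 * K
      · refine ⟨fls, F, G, ?_, ?_, ?_, ?_, ?_, hs⟩
        · intro r x; simp only [eval]; cases eval r x F <;> cases eval r x G <;> rfl
        · simp only [L]; omega
        · intro i; simp only [deg]; omega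
        · intro i; simp only [deg]; omega
        · omega
      · obtain ⟨F₀, u, S, h1, h2, h3, h4, h5, h6⟩ := ihF hdF (by omega)
        refine ⟨and F₀ G, u, and S G, ?_, ?_, ?_, ?_, h5, h6⟩
        · intro r x; simp only [eval, h1 r x]
          cases eval r x F₀ <;> cases eval r x G <;> simp
        · simp only [L]; omega
        · intro i; have := h3 i; simp only [deg]; omega
        · intro i; have := h4 i; simp only [deg]; omega
    · by_cases hs : 3 * (occ G).card ≤ 2 * K
      · refine ⟨fls, G, F, ?_, ?_, ?_, ?_, ?_, hs⟩
        · intro r x; simp only [eval]; cases eval r x F <;> cases eval r x G <;> rfl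
        · simp only [L]; omega
        · intro i; simp only [deg]; omega
        · intro i; simp only [deg]; omega
        · omega
      · obtain ⟨F₀, u, S, h1, h2, h3, h4, h5, h6⟩ := ihG hdG (by omega)
        refine ⟨and F₀ F, u, and S F, ?_, ?_, ?_, ?_, h5, h6⟩
        · intro r x; simp only [eval, h1 r x]
          cases eval r x F₀ <;> cases eval r x F <;> simp
        · simp only [L]; omega
        · intro i; have := h3 i; simp only [deg]; omega
        · intro i; have := h4 i; simp only [deg]; omega

end TF

end Pool.Agent.TH708.Dec
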