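import Pool.Agent.TH708.Dec.Core

set_option linter.unusedSectionVars false

/-!
# Rectangle covers
-/

namespace Pool.Agent.TH708.Dec

open Finset

variable {V : Type} [DecidableEq V] [Fintype V]

/-- `P` is a union of at most `N` rectangles with sides depending on `Y` and on `Z`. -/
def RC (P : (V → Bool) → Prop) (Y Z : Finset V) (N : ℕ) : Prop :=
  ∃ (ι : Type) (_ : Fintype ι) (A B : ι → (V → Bool) → Prop), Fintype.card ι ≤ N ∧
    (∀ k x x', (∀ i ∈ Y, x i = x' i) → A k x → A k x') ∧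
    (∀ k x x', (∀ i ∈ Z, x i = x' i) → B k x → B k x') ∧
    ∀ x, P x ↔ ∃ k, A k x ∧ B k x

theorem RC.mono {P : (V → Bool) → Prop} {Y Z Y' Z' : Finset V} {N N' : ℕ} (h : RC P Y Z N)
    (hY : Y ⊆ Y') (hZ : Z ⊆ Z') (hN : N ≤ N') : RC P Y' Z' N' := by
  obtain ⟨ι, _, A, B, hc, hA, hB, hP⟩ := h
  exact ⟨ι, inferInstance, A, B, hc.trans hN,
    fun k x x' hx => hA k x x' fun i hi => hx i (hY hi),
    fun k x x' hx => hB k x x' fun i hi => hx i (hZ hi), hP⟩

theorem RC.symm {P : (V → Bool) → Prop} {Y Z : Finset V} {N : ℕ} (h : RC P Y Z N) :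
    RC P Z Y N := by
  obtain ⟨ι, _, A, B, hc, hA, hB, hP⟩ := h
  exact ⟨ι, inferInstance, B, A, hc, hB, hA, fun x => (hP x).trans (by simp only [and_comm])⟩

theorem RC.and {P Q : (V → Bool) → Prop} {Y Z : Finset V} {N M : ℕ} (h : RC P Y Z N)
    (h' : RC Q Y Z M) : RC (fun x => P x ∧ Q x) Y Z (N * M) := by
  obtain ⟨ι, _, A, B, hc, hA, hB, hP⟩ := h
  obtain ⟨κ, _, A', B', hc', hA', hB', hP'⟩ := h'
  refine ⟨ι × κ, inferInstance, fun k x => A k.1 x ∧ A' k.2 x, fun k x => B k.1 x ∧ B' k.2 x,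
    ?_, ?_, ?_, ?_⟩
  · rw [Fintype.card_prod]; exact Nat.mul_le_mul hc hc'
  · exact fun k x x' hx hk => ⟨hA _ _ _ hx hk.1, hA' _ _ _ hx hk.2⟩
  · exact fun k x x' hx hk => ⟨hB _ _ _ hx hk.1, hB' _ _ _ hx hk.2⟩
  · intro x
    show P x ∧ Q x ↔ _
    rw [hP, hP']
    constructor
    · rintro ⟨⟨k, hk⟩, ⟨l, hl⟩⟩
      exact ⟨(k, l), ⟨hk.1, hl.1⟩, ⟨hk.2, hl.2⟩⟩
    · rintro ⟨⟨k, l⟩, h1, h2⟩
      exact ⟨⟨k, h1.1, h2.1⟩, ⟨l, h1.2, h2.2⟩⟩

theorem RC.or {P Q : (V → Bool) → Prop} {Y Z : Finset V} {N M : ℕ} (h : RC P Y Z N)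
    (h' : RC Q Y Z M) : RC (fun x => P x ∨ Q x) Y Z (N + M) := by
  obtain ⟨ι, _, A, B, hc, hA, hB, hP⟩ := h
  obtain ⟨κ, _, A', B', hc', hA', hB', hP'⟩ := h'
  refine ⟨ι ⊕ κ, inferInstance, Sum.elim A A', Sum.elim B B', ?_, ?_, ?_, ?_⟩
  · rw [Fintype.card_sum]; exact Nat.add_le_add hc hc'
  · rintro (k | k) x x' hx hk
    · exact hA _ _ _ hx hk
    · exact hA' _ _ _ hx hk
  · rintro (k | k) x x' hx hk
    · exact hB _ _ _ hx hk
    · exact hB' _ _ _ hx hk
  · intro x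
    show P x ∨ Q x ↔ _
    rw [hP, hP']
    constructor
    · rintro (⟨k, hk⟩ | ⟨l, hl⟩)
      · exact ⟨Sum.inl k, hk⟩
      · exact ⟨Sum.inr l, hl⟩
    · rintro ⟨k | k, hk⟩
      · exact Or.inl ⟨k, hk⟩
      · exact Or.inr ⟨k, hk⟩

theorem RC.of_false {P : (V → Bool) → Prop} (Y Z : Finset V) (h : ∀ x, ¬ P x) : RC P Y Z 0 :=
  ⟨Empty, inferInstance, fun k => k.elim, fun k => k.elim, by simp, fun k => k.elim,
    fun k => k.elim, fun x => by simp [h x]⟩

theorem RC.congr {P Q : (V → Bool) → Prop} {Y Z : Finset V} {N : ℕ} (h : RC P Y Z N)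
    (hPQ : ∀ x, P x ↔ Q x) : RC Q Y Z N := by
  obtain ⟨ι, _, A, B, hc, hA, hB, hP⟩ := h
  exact ⟨ι, inferInstance, A, B, hc, hA, hB, fun x => (hPQ x).symm.trans (hP x)⟩

/-- The trivial cover: one rectangle for every setting of the variables in `U ∩ Y`. -/
theorem RC.triv {P : (V → Bool) → Prop} {U : Finset V} (Y Z : Finset V)
    (hP : ∀ x x' : V → Bool, (∀ i ∈ U, x i = x' i) → P x → P x') (hU : U \ Y ⊆ Z) :
    RC P Y Z (2 ^ (U ∩ Y).card) := by
  classical
  refine ⟨(↥(U ∩ Y) → Bool), inferInstance, fun a x => ∀ i : ↥(U ∩ Y), x i = a i,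
    fun a x => P fun i => if h : i ∈ U ∩ Y then a ⟨i, h⟩ else x i, ?_, ?_, ?_, ?_⟩
  · rw [Fintype.card_fun, Fintype.card_bool, Fintype.card_coe]
  · intro a x x' hx h i
    rw [← h i]
    exact (hx i (mem_inter.1 i.2).2).symm
  · intro a x x' hx h
    refine hP _ _ ?_ h
    intro i hi
    by_cases hY : i ∈ U ∩ Y
    · simp [hY]
    · simp only [hY, dite_false]
      exact hx i (hU (mem_sdiff.2 ⟨hi, fun h' => hY (mem_inter.2 ⟨hi, h'⟩)⟩))
  · intro x
    constructor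
    · intro h
      refine ⟨fun i => x i, fun i => rfl, ?_⟩
      refine hP _ _ ?_ h
      intro i _
      by_cases hY : i ∈ U ∩ Y <;> simp [hY]
    · rintro ⟨a, h1, h2⟩
      refine hP _ _ ?_ h2
      intro i _
      by_cases hY : i ∈ U ∩ Y
      · simp only [hY, dite_true]
        exact (h1 ⟨i, hY⟩).symm
      · simp [hY]

/-- A cover of a predicate equivalent to `∀ y ∈ Y, x y = x (π y)` is large. -/
theorem RC.fooling {P : (V → Bool) → Prop} {Y Z : Finset V} {N : ℕ} (h : RC P Y Z N)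
    (π : V → V) (hYZ : Disjoint Y Z) (hπ : ∀ y ∈ Y, π y ∈ Z) (hinj : Set.InjOn π Y)
    (hP : ∀ x, P x ↔ ∀ y ∈ Y, x y = x (π y)) : 2 ^ Y.card ≤ N := by
  classical
  obtain ⟨ι, _, A, B, hc, hA, hB, hPP⟩ := h
  -- the word built from a subset of `Y`
  let w : Finset V → V → Bool := fun T i => decide (i ∈ T ∨ ∃ y ∈ T, π y = i)
  have hwY : ∀ T ⊆ Y, ∀ y ∈ Y, w T y = decide (y ∈ T) := by
    intro T hT y hy
    simp only [w]
    congr 1
    apply propext
    constructor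
    · rintro (h | ⟨y', hy', he⟩)
      · exact h
      · exfalso
        exact (disjoint_left.1 hYZ hy) (he ▸ hπ y' (hT hy'))
    · exact Or.inl
  have hwZ : ∀ T ⊆ Y, ∀ y ∈ Y, w T (π y) = decide (y ∈ T) := by
    intro T hT y hy
    simp only [w]
    congr 1
    apply propext
    constructor
    · rintro (h | ⟨y', hy', he⟩)
      · exfalso
        exact (disjoint_left.1 hYZ (hT h)) (hπ y hy)
      · rw [← hinj (hT hy') hy he]; exact hy'
    · exact fun h => Or.inr ⟨y, h, rfl⟩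
  have hwP : ∀ T ⊆ Y, P (w T) := by
    intro T hT
    rw [hP]
    intro y hy
    rw [hwY T hT y hy, hwZ T hT y hy]
  have hk : ∀ T : ↥(Y.powerset), ∃ k, A k (w T) ∧ B k (w T) := fun T =>
    (hPP _).1 (hwP T (mem_powerset.1 T.2))
  choose k hkA hkB using hk
  have hkinj : Function.Injective k := by
    intro S T hST
    have hS := mem_powerset.1 S.2
    have hT := mem_powerset.1 T.2
    -- the mixture
    let m : V → Bool := fun i => if i ∈ Y then w S i else w T i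
    have hmA : A (k S) m := hA _ _ _ (fun i hi => by simp [m, hi]) (hkA S)
    have hmB : B (k S) m := by
      rw [hST]
      exact hB _ _ _ (fun i hi => by
        simp only [m]
        rw [if_neg (fun h => (disjoint_left.1 hYZ h) hi)]) (hkB T)
    have hmP : P m := (hPP _).2 ⟨_, hmA, hmB⟩
    rw [hP] at hmP
    apply Subtype.ext
    ext y
    by_cases hy : y ∈ Y
    · have h1 := hmP y hy
      have h2 : m y = w S y := by simp [m, hy]
      have h3 : m (π y) = w T (π y) := by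
        simp only [m]
        rw [if_neg (fun h => (disjoint_left.1 hYZ h) (hπ y hy))]
      rw [h2, h3, hwY _ hS y hy, hwZ _ hT y hy] at h1
      simpa using h1
    · constructor
      · intro h; exact absurd (hS h) hy
      · intro h; exact absurd (hT h) hy
  have := Fintype.card_le_of_injective k hkinj
  rw [Fintype.card_coe, card_powerset] at this
  exact this.trans hc

end Pool.Agent.TH708.Dec
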