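import Pool.Agent.TH708.Dec.Match

/-!
# Formulas, circuits, and the typed bracket language
-/

namespace Pool.Agent.TH708.Dec

/-- De Morgan formulas: literals and constants at the leaves, binary AND and OR. -/
inductive Fm (I : Type) : Type
  | lit (i : I) (b : Bool)
  | cst (b : Bool)
  | and (F G : Fm I)
  | or (F G : Fm I)

namespace Fm

variable {I : Type}

/-- The value; the literal `lit i b` is true when input `i` equals `b`. -/
def eval (z : I → Bool) : Fm I → Bool
  | lit i b => z i == b
  | cst b => b
  | and F G => eval z F && eval z G
  | or F G => eval z F || eval z G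

/-- The depth. -/
def depth : Fm I → ℕ
  | lit _ _ => 0
  | cst _ => 0
  | and F G => max (depth F) (depth G) + 1
  | or F G => max (depth F) (depth G) + 1

/-- The formal degree in input `i`: AND adds, OR takes the maximum. -/
def deg [DecidableEq I] (i : I) : Fm I → ℕ
  | lit j _ => if j = i then 1 else 0
  | cst _ => 0
  | and F G => deg i F + deg i G
  | or F G => max (deg i F) (deg i G)

end Fm

/-- What a node of a circuit is: a literal, a constant, an AND gate or an OR gate. -/
inductive Kind (I G : Type) : Type
  | lit (i : I) (b : Bool)
  | cst (b : Bool)
  | and (a b : G)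
  | or (a b : G)

/-- De Morgan circuits on inputs `I`: finitely many nodes, wires going down in `rank`. -/
structure Ckt (I : Type) where
  /-- nodes -/
  G : Type
  [fin : Fintype G]
  /-- kinds -/
  kind : G → Kind I G
  /-- a rank witnessing that there is no cycle -/
  rank : G → ℕ
  and_lt : ∀ g a b, kind g = Kind.and a b → rank a < rank g ∧ rank b < rank g
  or_lt : ∀ g a b, kind g = Kind.or a b → rank a < rank g ∧ rank b < rank g
  /-- the output node -/
  out : G

attribute [instance] Ckt.fin

namespace Ckt

variable {I : Type}

/-- The unfolding of the circuit below the node `g` into a formula. -/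
def tree (C : Ckt I) (g : C.G) : Fm I :=
  match h : C.kind g with
  | Kind.lit i b => Fm.lit i b
  | Kind.cst b => Fm.cst b
  | Kind.and a b =>
    have := C.and_lt g a b h
    Fm.and (C.tree a) (C.tree b)
  | Kind.or a b =>
    have := C.or_lt g a b h
    Fm.or (C.tree a) (C.tree b)
termination_by C.rank g
decreasing_by all_goals omega

/-- The number of nodes. -/
def size (C : Ckt I) : ℕ := Fintype.card C.G

/-- The value of the circuit. -/
def eval (C : Ckt I) (z : I → Bool) : Bool := (C.tree C.out).eval z

/-- The depth of the circuit. -/
def depth (C : Ckt I) : ℕ := (C.tree C.out).depth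

/-- The formal degree of the circuit in input `i`. -/
def deg [DecidableEq I] (C : Ckt I) (i : I) : ℕ := (C.tree C.out).deg i

end Ckt

/-- The letter coded by three bits. -/
def letter : Bool → Bool → Bool → Letter
  | false, false, _ => Letter.neutral
  | true, false, t => Letter.opn t
  | false, true, t => Letter.cls t
  | true, true, _ => Letter.bad

/-- The word of length `n` coded by `3 n` bits: `z (i, 0)` says that position `i` opens,
`z (i, 1)` that it closes, and `z (i, 2)` is its type. -/
def word {n : ℕ} (z : Fin n × Fin 3 → Bool) (i : ℕ) : Letter :=
  if h : i < n then letter (z (⟨i, h⟩, 0)) (z (⟨i, h⟩, 1)) (z (⟨i, h⟩, 2)) else Letter.bad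

/-- The typed bracket language: the whole word is balanced, and matched brackets have equal
types. -/
def Dyck {n : ℕ} (z : Fin n × Fin 3 → Bool) : Prop := Bal (word z) 0 n

/-- The same word with all types forgotten. -/
def untyped {n : ℕ} (z : Fin n × Fin 3 → Bool) : Fin n × Fin 3 → Bool :=
  fun p => if p.2 = 2 then false else z p

end Pool.Agent.TH708.Dec
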