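import Pool.Agent.TH708.Dec.Defs
import Pool.Agent.TH708.Dec.Binom

set_option linter.unusedSectionVars false

/-!
# The lower bound for circuits
-/

namespace Pool.Agent.TH708.Dec

open Finset

section Conv

variable {I V : Type} [DecidableEq I] [DecidableEq V] [Fintype V] (e : V → I)

open Classical in
/-- Splitting the inputs into tracked ones, given by `e`, and side inputs. -/
noncomputable def conv : Fm I → TF V (I → Bool)
  | Fm.lit v b => if h : ∃ i, e i = v then TF.lit h.choose b else TF.side fun ρ => ρ v == b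
  | Fm.cst b => TF.side fun _ => b
  | Fm.and F G => TF.and (conv F) (conv G)
  | Fm.or F G => TF.or (conv F) (conv G)

open Classical in
/-- The merged input. -/
noncomputable def merge (ρ : I → Bool) (x : V → Bool) : I → Bool :=
  fun v => if h : ∃ i, e i = v then x h.choose else ρ v

theorem merge_e (he : Function.Injective e) (ρ : I → Bool) (x : V → Bool) (i : V) :
    merge e ρ x (e i) = x i := by
  have h : ∃ j, e j = e i := ⟨i, rfl⟩
  unfold merge
  rw [dif_pos h]
  exact congrArg x (he h.choose_spec)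

theorem merge_off (ρ : I → Bool) (x : V → Bool) (v : I) (h : ∀ i, e i ≠ v) :
    merge e ρ x v = ρ v := by
  unfold merge
  rw [dif_neg (fun ⟨i, hi⟩ => h i hi)]

theorem conv_eval (F : Fm I) (ρ : I → Bool) (x : V → Bool) :
    TF.eval ρ x (conv e F) = F.eval (merge e ρ x) := by
  induction F with
  | lit v b =>
    unfold conv
    by_cases h : ∃ i, e i = v
    · rw [dif_pos h]
      simp only [TF.eval, Fm.eval, merge]
      rw [dif_pos h]
    · rw [dif_neg h]
      simp only [TF.eval, Fm.eval, merge]
      rw [dif_neg h]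
  | cst b => rfl
  | and F G ihF ihG => simp only [conv, TF.eval, Fm.eval, ihF, ihG]
  | or F G ihF ihG => simp only [conv, TF.eval, Fm.eval, ihF, ihG]

theorem conv_deg (he : Function.Injective e) (F : Fm I) (i : V) :
    TF.deg i (conv e F) = F.deg (e i) := by
  induction F with
  | lit v b =>
    unfold conv
    by_cases h : ∃ i, e i = v
    · rw [dif_pos h]
      simp only [TF.deg, Fm.deg]
      have hs := h.choose_spec
      by_cases hi : h.choose = i
      · rw [if_pos hi, if_pos (by rw [← hs, hi])]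
      · rw [if_neg hi, if_neg (fun hv => hi (he (hs.trans hv)))]
    · rw [dif_neg h]
      simp only [TF.deg, Fm.deg]
      rw [if_neg (fun hv => h ⟨i, hv.symm⟩)]
  | cst b => rfl
  | and F G ihF ihG => simp only [conv, TF.deg, Fm.deg, ihF, ihG]
  | or F G ihF ihG => simp only [conv, TF.deg, Fm.deg, ihF, ihG]

theorem conv_L (F : Fm I) : TF.L (conv e F) ≤ 2 ^ F.depth := by
  induction F with
  | lit v b =>
    unfold conv
    by_cases h : ∃ i, e i = v
    · rw [dif_pos h]; simp [TF.L, Fm.depth]
    · rw [dif_neg h]; simp [TF.L, Fm.depth]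
  | cst b => simp [conv, TF.L, Fm.depth]
  | and F G ihF ihG =>
    simp only [conv, TF.L, Fm.depth]
    have h1 : 2 ^ F.depth ≤ 2 ^ max F.depth G.depth :=
      Nat.pow_le_pow_right (by norm_num) (le_max_left _ _)
    have h2 : 2 ^ G.depth ≤ 2 ^ max F.depth G.depth :=
      Nat.pow_le_pow_right (by norm_num) (le_max_right _ _)
    rw [pow_succ]; omega
  | or F G ihF ihG =>
    simp only [conv, TF.L, Fm.depth]
    have h1 : 2 ^ F.depth ≤ 2 ^ max F.depth G.depth :=
      Nat.pow_le_pow_right (by norm_num) (le_max_left _ _)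
    have h2 : 2 ^ G.depth ≤ 2 ^ max F.depth G.depth :=
      Nat.pow_le_pow_right (by norm_num) (le_max_right _ _)
    rw [pow_succ]; omega

end Conv

/-- The instruction bits of a matching on positions. -/
def instr {n : ℕ} (W : Finset (Fin n)) (π : ℕ → ℕ) : Fin n × Fin 3 → Bool :=
  fun p => if p.2 = 0 then decide (p.1 ∈ W ∧ (p.1 : ℕ) < π p.1)
    else if p.2 = 1 then decide (p.1 ∈ W ∧ π p.1 < (p.1 : ℕ)) else false

theorem isWord_of {n : ℕ} {W : Finset (Fin n)} {π : ℕ → ℕ} {z : Fin n × Fin 3 → Bool}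
    (h0 : ∀ i, z (i, 0) = instr W π (i, 0)) (h1 : ∀ i, z (i, 1) = instr W π (i, 1)) :
    IsWord n (W.image Fin.val) π (fun i => if h : i < n then z (⟨i, h⟩, 2) else false)
      (word z) := by
  have hm : ∀ i (h : i < n), i ∈ W.image Fin.val ↔ (⟨i, h⟩ : Fin n) ∈ W := by
    intro i h
    rw [mem_image]
    constructor
    · rintro ⟨a, ha, rfl⟩; exact ha
    · intro ha; exact ⟨_, ha, rfl⟩
  refine ⟨fun i h hi hlt => ?_, fun i h hi hlt => ?_, fun i h hi => ?_⟩
  · rw [hm i h] at hi
    simp only [word, h, dite_true]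
    rw [h0, h1]
    have a1 : instr W π (⟨i, h⟩, 0) = true := by simp [instr, hi, hlt]
    have a2 : instr W π (⟨i, h⟩, 1) = false := by
      simp only [instr]
      simp
      intro _; omega
    rw [a1, a2]; rfl
  · rw [hm i h] at hi
    simp only [word, h, dite_true]
    rw [h0, h1]
    have a1 : instr W π (⟨i, h⟩, 0) = false := by
      simp only [instr]
      simp
      intro _; omega
    have a2 : instr W π (⟨i, h⟩, 1) = true := by
      simp only [instr]
      simp [hi, hlt]
    rw [a1, a2]; rfl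
  · rw [hm i h] at hi
    simp only [word, h, dite_true]
    rw [h0, h1]
    have a1 : instr W π (⟨i, h⟩, 0) = false := by simp [instr, hi]
    have a2 : instr W π (⟨i, h⟩, 1) = false := by simp [instr, hi]
    rw [a1, a2]; rfl

theorem circuit_lower (r : ℕ) (hr : 8 ≤ r) {n : ℕ} (C : Ckt (Fin n × Fin 3))
    (hC : ∀ z, Dyck (untyped z) → (C.eval z = true ↔ Dyck z))
    (W : Finset (Fin n)) (hW : W.card = 2 ^ (11 * r + 4)) (hd : ∀ i ∈ W, C.deg (i, 2) ≤ 1) :
    3 * r ^ 2 ≤ C.depth := by
  classical
  let e : ↥W → Fin n × Fin 3 := fun i => (i.1, 2)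
  have he : Function.Injective e := fun a b h => Subtype.ext (congrArg Prod.fst h)
  refine tracked_lower r hr (by rw [Fintype.card_coe, hW]) (conv e (C.tree C.out))
    (fun i => by rw [conv_deg e he]; exact hd i.1 i.2) C.depth (conv_L e _) ?_
  intro Y hY
  -- the matching
  let toN : ↥W → ℕ := fun i => (i.1 : ℕ)
  have htoN : Function.Injective toN := fun a b h => Subtype.ext (Fin.ext h)
  let WN : Finset ℕ := W.image Fin.val
  let YN : Finset ℕ := Y.image toN
  have hYW : YN ⊆ WN := by
    intro i hi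
    rw [mem_image] at hi
    obtain ⟨a, _, rfl⟩ := hi
    exact mem_image.2 ⟨a.1, a.2, rfl⟩
  have hYc : YN.card = 2 ^ (11 * r + 3) := by
    rw [card_image_of_injective _ htoN, hY]
  have hWc : WN.card = 2 ^ (11 * r + 4) := by
    rw [card_image_of_injective _ Fin.val_injective, hW]
  obtain ⟨π, hπ⟩ := exists_match (2 ^ (11 * r + 3)) WN YN hYW hYc (by
    rw [card_sdiff_of_subset hYW, hYc, hWc, pow_succ 2 (11 * r + 3)]; omega)
  have hmemW : ∀ i : ↥W, ∃ j : ↥W, toN j = π (toN i) := by
    intro i
    have := hπ.mem (toN i) (mem_image.2 ⟨i.1, i.2, rfl⟩)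
    rw [mem_image] at this
    obtain ⟨a, ha, hv⟩ := this
    exact ⟨⟨a, ha⟩, hv⟩
  choose σ hσ using hmemW
  have hmemY : ∀ i : ↥W, toN i ∈ YN ↔ i ∈ Y := by
    intro i
    rw [mem_image]
    constructor
    · rintro ⟨a, ha, h⟩; rw [← htoN h]; exact ha
    · intro h; exact ⟨i, h, rfl⟩
  have hinW : ∀ i : ↥W, toN i ∈ WN := fun i => mem_image.2 ⟨i.1, i.2, rfl⟩
  have hσσ : ∀ i, σ (σ i) = i := by
    intro i
    apply htoN
    rw [hσ, hσ, hπ.inv _ (hinW i)]
  have hσY : ∀ i, i ∈ Y ↔ σ i ∉ Y := by
    intro i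
    rw [← hmemY, ← hmemY (σ i), hσ]
    exact hπ.swap _ (hinW i)
  refine ⟨instr W π, σ, fun y hy => (hσY y).1 hy, fun a _ b _ hab => ?_, fun x => ?_⟩
  · rw [← hσσ a, hab, hσσ]
  · rw [conv_eval]
    set z := merge e (instr W π) x with hz
    have hz0 : ∀ i, z (i, 0) = instr W π (i, 0) := fun i =>
      merge_off e _ _ _ fun j hj => by
        have := congrArg Prod.snd hj
        simp [e] at this
    have hz1 : ∀ i, z (i, 1) = instr W π (i, 1) := fun i =>
      merge_off e _ _ _ fun j hj => by
        have := congrArg Prod.snd hj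
        simp [e] at this
    have hz2 : ∀ i : ↥W, z (i.1, 2) = x i := fun i => merge_e e he _ _ i
    have hlt : ∀ i ∈ WN, i < n := by
      intro i hi
      rw [mem_image] at hi
      obtain ⟨a, _, rfl⟩ := hi
      exact a.2
    have hbal : Dyck z ↔ ∀ y ∈ Y, x y = x (σ y) := by
      unfold Dyck
      rw [bal_iff hlt hπ (isWord_of hz0 hz1)]
      have hval : ∀ i : ↥W, (if h : toN i < n then z (⟨toN i, h⟩, 2) else false) = x i := by
        intro i
        rw [dif_pos i.1.2, ← hz2 i]
      constructor
      · intro h y _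
        have := h (toN y) (hinW y)
        rw [hval y, ← hσ y, hval (σ y)] at this
        exact this
      · intro h i hi
        obtain ⟨a, ha, rfl⟩ := mem_image.1 hi
        have h2 := hval ⟨a, ha⟩
        have h3 := hval (σ ⟨a, ha⟩)
        rw [hσ] at h3
        show (if h : (a : ℕ) < n then z (⟨(a : ℕ), h⟩, 2) else false) =
          (if h : π (a : ℕ) < n then z (⟨π (a : ℕ), h⟩, 2) else false)
        refine h2.trans (Eq.trans ?_ h3.symm)
        by_cases hy : (⟨a, ha⟩ : ↥W) ∈ Y
        · exact h _ hy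
        · have h4 : σ ⟨a, ha⟩ ∈ Y := by
            by_contra hc
            exact hy ((hσY _).2 hc)
          have h5 := h _ h4
          rw [hσσ] at h5
          exact h5.symm
    rw [← hbal]
    apply hC
    unfold Dyck
    have h0' : ∀ i, untyped z (i, 0) = instr W π (i, 0) := fun i => by
      show (if (0 : Fin 3) = 2 then false else z (i, 0)) = _
      rw [if_neg (by decide)]; exact hz0 i
    have h1' : ∀ i, untyped z (i, 1) = instr W π (i, 1) := fun i => by
      show (if (1 : Fin 3) = 2 then false else z (i, 1)) = _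
      rw [if_neg (by decide)]; exact hz1 i
    rw [bal_iff hlt hπ (isWord_of h0' h1')]
    intro i _
    have hf : ∀ k : ℕ, (if h : k < n then untyped z (⟨k, h⟩, 2) else false) = false := by
      intro k
      by_cases h : k < n
      · rw [dif_pos h]; rfl
      · rw [dif_neg h]
    show (if h : i < n then untyped z (⟨i, h⟩, 2) else false) =
      (if h : π i < n then untyped z (⟨π i, h⟩, 2) else false)
    rw [hf, hf]

/-- **The lower bound.** -/
theorem depth_lower {n : ℕ} (C : Ckt (Fin n × Fin 3))
    (hC : ∀ z, Dyck (untyped z) → (C.eval z = true ↔ Dyck z))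
    (W : Finset (Fin n)) (hd : ∀ i ∈ W, C.deg (i, 2) ≤ 1) :
    (Nat.log 2 W.card) ^ 2 ≤ 57 * C.depth + 10404 := by
  set l := Nat.log 2 W.card with hl
  by_cases hl' : l < 92
  · have : l ^ 2 ≤ 92 ^ 2 := Nat.pow_le_pow_left (by omega) 2
    omega
  · set r := (l - 4) / 11 with hr
    have hr8 : 8 ≤ r := by omega
    have hrl : 11 * r + 4 ≤ l := by omega
    have hlr : l ≤ 13 * r := by omega
    have hcard : 2 ^ (11 * r + 4) ≤ W.card := by
      have hne : W.card ≠ 0 := by
        intro h0
        rw [h0] at hl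
        simp at hl
        omega
      exact (Nat.pow_le_pow_right (by norm_num) hrl).trans (Nat.pow_log_le_self 2 hne)
    obtain ⟨W', hW', hc⟩ := exists_subset_card_eq hcard
    have h := circuit_lower r hr8 C hC W' hc fun i hi => hd i (hW' hi)
    have h2 : l ^ 2 ≤ (13 * r) ^ 2 := Nat.pow_le_pow_left hlr 2
    nlinarith

end Pool.Agent.TH708.Dec
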