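import Mathlib

/-!
# Balanced words and noncrossing matchings
-/

namespace Pool.Agent.TH708.Dec

open Finset

/-- Letters: neutral, opening bracket of one of two types, closing bracket of one of two types,
and an invalid letter. -/
inductive Letter : Type
  | neutral
  | opn (t : Bool)
  | cls (t : Bool)
  | bad

/-- The segment `[i, j)` of the word is balanced, with matched brackets of equal types. -/
inductive Bal (w : ℕ → Letter) : ℕ → ℕ → Prop
  | nil (i : ℕ) : Bal w i i
  | skip (i j : ℕ) : w i = Letter.neutral → Bal w (i + 1) j → Bal w i j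
  | pair (i k j : ℕ) (t : Bool) : w i = Letter.opn t → w k = Letter.cls t →
      Bal w (i + 1) k → Bal w (k + 1) j → Bal w i j

/-- A noncrossing matching of `W` joining `Y` to `W \ Y`. -/
structure NonCross (W Y : Finset ℕ) (π : ℕ → ℕ) : Prop where
  mem : ∀ i ∈ W, π i ∈ W
  inv : ∀ i ∈ W, π (π i) = i
  swap : ∀ i ∈ W, (i ∈ Y ↔ π i ∉ Y)
  nc : ∀ i ∈ W, i < π i → ∀ l ∈ W, i < l → l < π i → i < π l ∧ π l < π i

theorem NonCross.ne {W Y : Finset ℕ} {π : ℕ → ℕ} (h : NonCross W Y π) {i : ℕ} (hi : i ∈ W) :
    π i ≠ i := by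
  intro he
  have := h.swap i hi
  rw [he] at this
  exact (iff_not_self this).elim

theorem exists_match : ∀ (k : ℕ) (W Y : Finset ℕ), Y ⊆ W → Y.card = k → (W \ Y).card = k →
    ∃ π, NonCross W Y π := by
  intro k
  induction k with
  | zero =>
    intro W Y hY h1 h2
    rw [card_eq_zero] at h1 h2
    have hW : W = ∅ := by
      rw [h1, sdiff_empty] at h2; exact h2
    subst hW
    exact ⟨id, by simp, by simp, by simp, by simp⟩
  | succ k ih =>
    intro W Y hY h1 h2
    have hne : (Y ×ˢ (W \ Y)).Nonempty := by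
      rw [nonempty_product]
      exact ⟨card_pos.1 (by omega), card_pos.1 (by omega)⟩
    obtain ⟨⟨a, b⟩, hab, hmin⟩ :=
      exists_min_image (Y ×ˢ (W \ Y)) (fun p => (p.1 - p.2) + (p.2 - p.1)) hne
    rw [mem_product, mem_sdiff] at hab
    obtain ⟨haY, hbW, hbY⟩ := hab
    have haW := hY haY
    have hab' : a ≠ b := by rintro rfl; exact hbY haY
    have hbetween : ∀ c ∈ W, ¬ (a < c ∧ c < b) ∧ ¬ (b < c ∧ c < a) := by
      intro c hc
      by_cases hcY : c ∈ Y
      · have h := hmin (c, b) (by
          rw [mem_product, mem_sdiff]; exact ⟨hcY, hbW, hbY⟩)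
        simp only at h
        omega
      · have h := hmin (a, c) (by
          rw [mem_product, mem_sdiff]; exact ⟨haY, hc, hcY⟩)
        simp only at h
        omega
    obtain ⟨π', hπ'⟩ := ih ((W.erase a).erase b) (Y.erase a) (by
        intro i hi
        rw [mem_erase] at hi
        rw [mem_erase, mem_erase]
        exact ⟨by rintro rfl; exact hbY hi.2, hi.1, hY hi.2⟩)
      (by rw [card_erase_of_mem haY]; omega)
      (by
        have he : (W.erase a).erase b \ Y.erase a = (W \ Y).erase b := by
          ext i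
          simp only [mem_sdiff, mem_erase]
          constructor
          · rintro ⟨⟨h3, h4, h5⟩, h6⟩
            exact ⟨h3, h5, fun h7 => h6 ⟨h4, h7⟩⟩
          · rintro ⟨h3, h4, h5⟩
            exact ⟨⟨h3, by rintro rfl; exact h5 haY, h4⟩, fun h6 => h5 h6.2⟩
        rw [he, card_erase_of_mem (mem_sdiff.2 ⟨hbW, hbY⟩)]; omega)
    have hmem' : ∀ i ∈ W, i ≠ a → i ≠ b → i ∈ (W.erase a).erase b := by
      intro i hi h3 h4
      rw [mem_erase, mem_erase]; exact ⟨h4, h3, hi⟩
    have hback : ∀ i ∈ (W.erase a).erase b, i ∈ W ∧ i ≠ a ∧ i ≠ b := by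
      intro i hi
      rw [mem_erase, mem_erase] at hi
      exact ⟨hi.2.2, hi.2.1, hi.1⟩
    refine ⟨fun i => if i = a then b else if i = b then a else π' i, ?_, ?_, ?_, ?_⟩
    · intro i hi
      by_cases h3 : i = a
      · simp [h3, hbW]
      · by_cases h4 : i = b
        · subst h4; simp [h3, haW]
        · simp only [h3, h4, if_false]
          exact (hback _ (hπ'.mem i (hmem' i hi h3 h4))).1
    · intro i hi
      by_cases h3 : i = a
      · subst h3; simp [hab'.symm]
      · by_cases h4 : i = b
        · subst h4; simp [h3]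
        · have h5 := hback _ (hπ'.mem i (hmem' i hi h3 h4))
          simp only [h3, h4, h5.2.1, h5.2.2, if_false]
          exact hπ'.inv i (hmem' i hi h3 h4)
    · intro i hi
      by_cases h3 : i = a
      · subst h3; simp [haY, hbY]
      · by_cases h4 : i = b
        · subst h4; simp [h3, hbY, haY]
        · have h5 := hback _ (hπ'.mem i (hmem' i hi h3 h4))
          have h6 := hπ'.swap i (hmem' i hi h3 h4)
          simp only [h3, h4, if_false]
          rw [mem_erase, mem_erase] at h6
          constructor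
          · intro h7 h8
            exact h6.1 ⟨h3, h7⟩ ⟨h5.2.1, h8⟩
          · intro h7
            exact (h6.2 fun h8 => h7 h8.2).2
    · intro i hi hlt l hl hil hlp
      by_cases h3 : i = a
      · subst h3
        simp only [if_true] at hlt hlp
        exact absurd ⟨hil, hlp⟩ (hbetween l hl).1
      · by_cases h4 : i = b
        · subst h4
          simp only [h3, if_false, if_true] at hlt hlp
          exact absurd ⟨hil, hlp⟩ (hbetween l hl).2
        · have h5 := hback _ (hπ'.mem i (hmem' i hi h3 h4))
          simp only [h3, h4, if_false] at hlt hlp ⊢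
          have hbi := hbetween i hi
          have hbp := hbetween _ h5.1
          by_cases h6 : l = a
          · subst h6
            simp only [if_true]
            have := h5.2.2
            constructor <;> omega
          · by_cases h7 : l = b
            · subst h7
              simp only [h6, if_false, if_true]
              have := h5.2.1
              constructor <;> omega
            · simp only [h6, h7, if_false]
              exact hπ'.nc i (hmem' i hi h3 h4) hlt l (hmem' l hl h6 h7) hil hlp

/-- The word `w` on `[0, n)` is the word of the matching `π` with types `x`. -/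
structure IsWord (n : ℕ) (W : Finset ℕ) (π : ℕ → ℕ) (x : ℕ → Bool) (w : ℕ → Letter) : Prop where
  opn : ∀ i < n, i ∈ W → i < π i → w i = Letter.opn (x i)
  cls : ∀ i < n, i ∈ W → π i < i → w i = Letter.cls (x i)
  neu : ∀ i < n, i ∉ W → w i = Letter.neutral

/-- No pair leaves the segment. -/
def Closed (W : Finset ℕ) (π : ℕ → ℕ) (i j : ℕ) : Prop :=
  ∀ l ∈ W, i ≤ l → l < j → i ≤ π l ∧ π l < j

theorem closed_inner {W Y : Finset ℕ} {π : ℕ → ℕ} (h : NonCross W Y π) {i : ℕ} (hi : i ∈ W)
    (hlt : i < π i) : Closed W π (i + 1) (π i) := by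
  intro l hl h1 h2
  have := h.nc i hi hlt l hl (by omega) h2
  omega

theorem closed_outer {W Y : Finset ℕ} {π : ℕ → ℕ} (h : NonCross W Y π) {i j : ℕ} (hi : i ∈ W)
    (hlt : i < π i) (hc : Closed W π i j) : Closed W π (π i + 1) j := by
  intro l hl h1 h2
  have h3 := hc l hl (by omega) h2
  refine ⟨?_, h3.2⟩
  by_contra h4
  have h5 := h.inv l hl
  have h6 := h.inv i hi
  rcases Nat.lt_or_ge i (π l) with h7 | h7
  · rcases Nat.lt_or_ge (π l) (π i) with h8 | h8
    · have := h.nc i hi hlt (π l) (h.mem l hl) h7 h8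
      rw [h5] at this
      omega
    · have h9 : π l = π i := by omega
      rw [h9, h6] at h5
      omega
  · have h9 : π l = i := by omega
    rw [h9] at h5
    omega

theorem closed_skip {W : Finset ℕ} {π : ℕ → ℕ} {i j : ℕ} (hi : i ∉ W)
    (hmem : ∀ l ∈ W, π l ∈ W) (hc : Closed W π i j) : Closed W π (i + 1) j := by
  intro l hl h1 h2
  have h3 := hc l hl (by omega) h2
  refine ⟨?_, h3.2⟩
  by_contra h4
  have : π l = i := by omega
  exact hi (this ▸ hmem l hl)

theorem closed_bal {n : ℕ} {W Y : Finset ℕ} {π : ℕ → ℕ} {x : ℕ → Bool} {w : ℕ → Letter}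
    (h : NonCross W Y π) (hw : IsWord n W π x w) (hx : ∀ i ∈ W, x i = x (π i)) :
    ∀ (d i j : ℕ), j = i + d → j ≤ n → Closed W π i j → Bal w i j := by
  intro d
  induction d using Nat.strong_induction_on with
  | _ d ih =>
    intro i j hj hjn hc
    rcases Nat.eq_zero_or_pos d with h0 | h0
    · subst h0
      rw [hj]
      exact Bal.nil i
    · by_cases hi : i ∈ W
      · have h1 := hc i hi le_rfl (by omega)
        have h2 := h.ne hi
        have h3 := h.mem i hi
        have h4 := h.inv i hi
        have hlt : i < π i := by omega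
        refine Bal.pair i (π i) j (x i) (hw.opn i (by omega) hi hlt) ?_ ?_ ?_
        · rw [hw.cls (π i) (by omega) h3 (by rw [h4]; exact hlt), ← hx i hi]
        · exact ih (π i - (i + 1)) (by omega) _ _ (by omega) (by omega) (closed_inner h hi hlt)
        · exact ih (j - (π i + 1)) (by omega) _ _ (by omega) (by omega)
            (closed_outer h hi hlt hc)
      · exact Bal.skip i j (hw.neu i (by omega) hi)
          (ih (d - 1) (by omega) _ _ (by omega) hjn (closed_skip hi h.mem hc))

/-- The weight of a letter. -/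
def Letter.wt : Letter → ℤ
  | neutral => 0
  | opn _ => 1
  | cls _ => -1
  | bad => 0

/-- Heights. -/
def ht (w : ℕ → Letter) (l : ℕ) : ℤ := ∑ a ∈ range l, (w a).wt

theorem ht_succ (w : ℕ → Letter) (l : ℕ) : ht w (l + 1) = ht w l + (w l).wt := by
  unfold ht; rw [sum_range_succ]

theorem bal_ht {w : ℕ → Letter} {i j : ℕ} (h : Bal w i j) :
    i ≤ j ∧ ht w j = ht w i ∧ ∀ l, i ≤ l → l ≤ j → ht w i ≤ ht w l := by
  induction h with
  | nil i =>
    refine ⟨le_rfl, rfl, fun l h1 h2 => ?_⟩
    have : l = i := by omega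
    rw [this]
  | skip i j hi _ ih =>
    obtain ⟨h1, h2, h3⟩ := ih
    have h4 := ht_succ w i
    rw [hi] at h4
    simp only [Letter.wt, add_zero] at h4
    refine ⟨by omega, by rw [h2, h4], fun l h5 h6 => ?_⟩
    rcases Nat.eq_or_lt_of_le h5 with h7 | h7
    · rw [h7]
    · rw [← h4]; exact h3 l h7 h6
  | pair i k j t hi hk _ _ ih1 ih2 =>
    obtain ⟨a1, a2, a3⟩ := ih1
    obtain ⟨b1, b2, b3⟩ := ih2
    have h4 := ht_succ w i
    rw [hi] at h4
    have h5 := ht_succ w k
    rw [hk] at h5
    simp only [Letter.wt] at h4 h5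
    refine ⟨by omega, by linarith, fun l h6 h7 => ?_⟩
    rcases Nat.eq_or_lt_of_le h6 with h8 | h8
    · rw [h8]
    · rcases Nat.lt_or_ge k l with h9 | h9
      · have := b3 l h9 h7
        linarith
      · have := a3 l h8 h9
        linarith

/-- Forgetting the types. -/
def Letter.forget : Letter → Letter
  | neutral => neutral
  | opn _ => opn false
  | cls _ => cls false
  | bad => bad

theorem Letter.forget_wt (a : Letter) : a.forget.wt = a.wt := by cases a <;> rfl

theorem ht_forget (w : ℕ → Letter) (l : ℕ) : ht (fun i => (w i).forget) l = ht w l := by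
  unfold ht
  exact sum_congr rfl fun a _ => Letter.forget_wt _

theorem isWord_forget {n : ℕ} {W : Finset ℕ} {π : ℕ → ℕ} {x : ℕ → Bool} {w : ℕ → Letter}
    (hw : IsWord n W π x w) : IsWord n W π (fun _ => false) fun i => (w i).forget := by
  refine ⟨fun i h1 h2 h3 => ?_, fun i h1 h2 h3 => ?_, fun i h1 h2 => ?_⟩
  · show (w i).forget = _
    rw [hw.opn i h1 h2 h3]; rfl
  · show (w i).forget = _
    rw [hw.cls i h1 h2 h3]; rfl
  · show (w i).forget = _
    rw [hw.neu i h1 h2]; rfl

theorem bal_types {n : ℕ} {W Y : Finset ℕ} {π : ℕ → ℕ} {x : ℕ → Bool} {w : ℕ → Letter}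
    (h : NonCross W Y π) (hw : IsWord n W π x w) {i j : ℕ} (hb : Bal w i j) (hjn : j ≤ n)
    (hc : Closed W π i j) : ∀ l ∈ W, i ≤ l → l < j → x l = x (π l) := by
  induction hb with
  | nil i => intro l _ h1 h2; omega
  | skip i j hi hb ih =>
    have hij := (bal_ht hb).1
    have hiW : i ∉ W := by
      intro hiW
      have := h.ne hiW
      rcases Nat.lt_or_ge i (π i) with h1 | h1
      · rw [hw.opn i (by omega) hiW h1] at hi; cases hi
      · rw [hw.cls i (by omega) hiW (by omega)] at hi; cases hi
    intro l hl h1 h2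
    have hne : l ≠ i := by rintro rfl; exact hiW hl
    exact ih hjn (closed_skip hiW h.mem hc) l hl (by omega) h2
  | pair i k j t hi hk hb1 hb2 ih1 ih2 =>
    obtain ⟨a1, a2, a3⟩ := bal_ht hb1
    obtain ⟨b1, b2, b3⟩ := bal_ht hb2
    have hiW : i ∈ W := by
      by_contra hiW
      rw [hw.neu i (by omega) hiW] at hi; cases hi
    have hkW : k ∈ W := by
      by_contra hkW
      rw [hw.neu k (by omega) hkW] at hk; cases hk
    have hlt : i < π i := by
      have := h.ne hiW
      by_contra hc'
      rw [hw.cls i (by omega) hiW (by omega)] at hi; cases hi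
    have hxi : x i = t := by
      rw [hw.opn i (by omega) hiW hlt] at hi
      exact Letter.opn.inj hi
    have hlk : π k < k := by
      have := h.ne hkW
      by_contra hc'
      rw [hw.opn k (by omega) hkW (by omega)] at hk; cases hk
    have hxk : x k = t := by
      rw [hw.cls k (by omega) hkW hlk] at hk
      exact Letter.cls.inj hk
    have hcl := hc i hiW le_rfl (by omega)
    have hin : Bal (fun i => (w i).forget) (i + 1) (π i) :=
      closed_bal h (isWord_forget hw) (fun _ _ => rfl) (π i - (i + 1)) _ _ (by omega) (by omega)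
        (closed_inner h hiW hlt)
    obtain ⟨c1, c2, c3⟩ := bal_ht hin
    simp only [ht_forget] at c2 c3
    have hk1 : ht w (k + 1) = ht w k - 1 := by
      rw [ht_succ, hk]; rfl
    have hπ1 : ht w (π i + 1) = ht w (π i) - 1 := by
      rw [ht_succ, hw.cls (π i) (by omega) (h.mem i hiW) (by rw [h.inv i hiW]; exact hlt)]; rfl
    have hkπ : k = π i := by
      rcases Nat.lt_trichotomy k (π i) with h1 | h1 | h1
      · have := c3 (k + 1) (by omega) (by omega)
        omega
      · exact h1
      · have := a3 (π i + 1) (by omega) (by omega)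
        omega
    intro l hl h1 h2
    rcases Nat.lt_trichotomy l i with h3 | h3 | h3
    · omega
    · rw [h3, ← hkπ, hxi, hxk]
    · rcases Nat.lt_trichotomy l k with h4 | h4 | h4
      · exact ih1 (by omega) (by rw [hkπ]; exact closed_inner h hiW hlt) l hl (by omega) h4
      · rw [h4, hkπ, h.inv i hiW, hxi, ← hkπ, hxk]
      · exact ih2 hjn (by rw [hkπ]; exact closed_outer h hiW hlt hc) l hl (by omega) h2

/-- For the word of a noncrossing matching, balance means that matched types agree. -/
theorem bal_iff {n : ℕ} {W Y : Finset ℕ} {π : ℕ → ℕ} {x : ℕ → Bool} {w : ℕ → Letter}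
    (hW : ∀ i ∈ W, i < n) (h : NonCross W Y π) (hw : IsWord n W π x w) :
    Bal w 0 n ↔ ∀ i ∈ W, x i = x (π i) := by
  have hcl : Closed W π 0 n := fun l hl _ _ => ⟨Nat.zero_le _, hW _ (h.mem l hl)⟩
  constructor
  · intro hb i hi
    exact bal_types h hw hb le_rfl hcl i hi (Nat.zero_le _) (hW i hi)
  · intro hx
    exact closed_bal h hw hx n 0 n (by omega) le_rfl hcl

end Pool.Agent.TH708.Dec
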