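import Pool.Agent.TH708.Dec.Defs

set_option linter.unusedSectionVars false

/-!
# Small decomposable circuits for the typed bracket language
-/

namespace Pool.Agent.TH708.Dec

open Finset

section Share

variable {I : Type}

open Classical in
/-- The set of subformulas. -/
noncomputable def sub : Fm I → Finset (Fm I)
  | Fm.lit i b => {Fm.lit i b}
  | Fm.cst b => {Fm.cst b}
  | Fm.and F G => insert (Fm.and F G) (sub F ∪ sub G)
  | Fm.or F G => insert (Fm.or F G) (sub F ∪ sub G)

theorem self_mem_sub (F : Fm I) : F ∈ sub F := by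
  classical
  cases F <;> simp [sub]

theorem sub_closed (F : Fm I) : ∀ A B, (Fm.and A B ∈ sub F ∨ Fm.or A B ∈ sub F) →
    A ∈ sub F ∧ B ∈ sub F := by
  classical
  induction F with
  | lit i b => intro A B h; simp [sub] at h
  | cst b => intro A B h; simp [sub] at h
  | and F G ihF ihG =>
    intro A B h
    simp only [sub, mem_insert, mem_union] at h ⊢
    rcases h with (h | h | h) | (h | h | h)
    · injection h with h1 h2
      subst h1 h2
      exact ⟨Or.inr (Or.inl (self_mem_sub _)), Or.inr (Or.inr (self_mem_sub _))⟩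
    · have := ihF A B (Or.inl h)
      exact ⟨Or.inr (Or.inl this.1), Or.inr (Or.inl this.2)⟩
    · have := ihG A B (Or.inl h)
      exact ⟨Or.inr (Or.inr this.1), Or.inr (Or.inr this.2)⟩
    · cases h
    · have := ihF A B (Or.inr h)
      exact ⟨Or.inr (Or.inl this.1), Or.inr (Or.inl this.2)⟩
    · have := ihG A B (Or.inr h)
      exact ⟨Or.inr (Or.inr this.1), Or.inr (Or.inr this.2)⟩
  | or F G ihF ihG =>
    intro A B h
    simp only [sub, mem_insert, mem_union] at h ⊢
    rcases h with (h | h | h) | (h | h | h)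
    · cases h
    · have := ihF A B (Or.inl h)
      exact ⟨Or.inr (Or.inl this.1), Or.inr (Or.inl this.2)⟩
    · have := ihG A B (Or.inl h)
      exact ⟨Or.inr (Or.inr this.1), Or.inr (Or.inr this.2)⟩
    · injection h with h1 h2
      subst h1 h2
      exact ⟨Or.inr (Or.inl (self_mem_sub _)), Or.inr (Or.inr (self_mem_sub _))⟩
    · have := ihF A B (Or.inr h)
      exact ⟨Or.inr (Or.inl this.1), Or.inr (Or.inl this.2)⟩
    · have := ihG A B (Or.inr h)
      exact ⟨Or.inr (Or.inr this.1), Or.inr (Or.inr this.2)⟩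

/-- The kind of a subformula as a node. -/
def kindOf (S : Finset (Fm I)) (hS : ∀ A B, (Fm.and A B ∈ S ∨ Fm.or A B ∈ S) → A ∈ S ∧ B ∈ S) :
    ↥S → Kind I ↥S
  | ⟨Fm.lit i b, _⟩ => Kind.lit i b
  | ⟨Fm.cst b, _⟩ => Kind.cst b
  | ⟨Fm.and A B, h⟩ => Kind.and ⟨A, (hS A B (Or.inl h)).1⟩ ⟨B, (hS A B (Or.inl h)).2⟩
  | ⟨Fm.or A B, h⟩ => Kind.or ⟨A, (hS A B (Or.inr h)).1⟩ ⟨B, (hS A B (Or.inr h)).2⟩

/-- The circuit whose nodes are the subformulas of `F`. -/
noncomputable def share (F : Fm I) : Ckt I where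
  G := ↥(sub F)
  kind := kindOf (sub F) (sub_closed F)
  rank := fun g => g.1.depth
  and_lt := by
    rintro ⟨A, hA⟩ a b h
    cases A with
    | lit i b => simp [kindOf] at h
    | cst b => simp [kindOf] at h
    | and A B =>
      simp only [kindOf, Kind.and.injEq] at h
      rw [← h.1, ← h.2]
      simp only [Fm.depth]
      omega
    | or A B => simp [kindOf] at h
  or_lt := by
    rintro ⟨A, hA⟩ a b h
    cases A with
    | lit i b => simp [kindOf] at h
    | cst b => simp [kindOf] at h
    | or A B =>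
      simp only [kindOf, Kind.or.injEq] at h
      rw [← h.1, ← h.2]
      simp only [Fm.depth]
      omega
    | and A B => simp [kindOf] at h
  out := ⟨F, self_mem_sub F⟩

theorem tree_lit (C : Ckt I) (g : C.G) (i : I) (b : Bool) (h : C.kind g = Kind.lit i b) :
    C.tree g = Fm.lit i b := by
  rw [Ckt.tree]; split <;> simp_all

theorem tree_cst (C : Ckt I) (g : C.G) (b : Bool) (h : C.kind g = Kind.cst b) :
    C.tree g = Fm.cst b := by
  rw [Ckt.tree]; split <;> simp_all

theorem tree_and (C : Ckt I) (g a b : C.G) (h : C.kind g = Kind.and a b) :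
    C.tree g = Fm.and (C.tree a) (C.tree b) := by
  rw [Ckt.tree]; split <;> simp_all

theorem tree_or (C : Ckt I) (g a b : C.G) (h : C.kind g = Kind.or a b) :
    C.tree g = Fm.or (C.tree a) (C.tree b) := by
  rw [Ckt.tree]; split <;> simp_all

theorem share_tree (F : Fm I) : ∀ (A : Fm I) (h : A ∈ sub F),
    (share F).tree (⟨A, h⟩ : ↥(sub F)) = A := by
  intro A
  induction A with
  | lit i b => exact fun h => tree_lit (share F) _ i b rfl
  | cst b => exact fun h => tree_cst (share F) _ b rfl
  | and A B ihA ihB =>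
    intro h
    have hc := sub_closed F A B (Or.inl h)
    exact (tree_and (share F) (⟨_, h⟩ : ↥(sub F)) (⟨A, hc.1⟩ : ↥(sub F))
      (⟨B, hc.2⟩ : ↥(sub F)) rfl).trans (congrArg₂ Fm.and (ihA hc.1) (ihB hc.2))
  | or A B ihA ihB =>
    intro h
    have hc := sub_closed F A B (Or.inr h)
    exact (tree_or (share F) (⟨_, h⟩ : ↥(sub F)) (⟨A, hc.1⟩ : ↥(sub F))
      (⟨B, hc.2⟩ : ↥(sub F)) rfl).trans (congrArg₂ Fm.or (ihA hc.1) (ihB hc.2))

theorem share_out (F : Fm I) : (share F).tree (share F).out = F := share_tree F F _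

theorem share_size (F : Fm I) : (share F).size = (sub F).card := by
  unfold Ckt.size
  show Fintype.card ↥(sub F) = _
  exact Fintype.card_coe _

end Share

variable (n : ℕ)

/-- A literal at position `i`. -/
def lt' (i : ℕ) (c : Fin 3) (b : Bool) : Fm (Fin n × Fin 3) :=
  if h : i < n then Fm.lit (⟨i, h⟩, c) b else Fm.cst false

/-- Position `i` is neutral. -/
def skipF (i : ℕ) : Fm (Fin n × Fin 3) := Fm.and (lt' n i 0 false) (lt' n i 1 false)
/-- Position `i` opens. -/
def openF (i : ℕ) : Fm (Fin n × Fin 3) := Fm.and (lt' n i 0 true) (lt' n i 1 false)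
/-- Position `i` closes. -/
def closeF (i : ℕ) : Fm (Fin n × Fin 3) := Fm.and (lt' n i 0 false) (lt' n i 1 true)
/-- Positions `i` and `k` have both type `b`. -/
def sameF (b : Bool) (i k : ℕ) : Fm (Fin n × Fin 3) := Fm.and (lt' n i 2 b) (lt' n k 2 b)
/-- Positions `i` and `k` have the same type. -/
def eqF (i k : ℕ) : Fm (Fin n × Fin 3) := Fm.or (sameF n true i k) (sameF n false i k)
/-- `i` opens and `k` closes. -/
def ocF (i k : ℕ) : Fm (Fin n × Fin 3) := Fm.and (openF n i) (closeF n k)
/-- `i` and `k` can be matched. -/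
def pairF (i k : ℕ) : Fm (Fin n × Fin 3) := Fm.and (ocF n i k) (eqF n i k)

/-- Iterated OR. -/
def orr {I : Type} (f : ℕ → Fm I) : ℕ → Fm I
  | 0 => Fm.cst false
  | m + 1 => Fm.or (orr f m) (f m)

/-- The formula for the segment `[i, i + d)`. -/
def T (d i : ℕ) : Fm (Fin n × Fin 3) :=
  match d with
  | 0 => Fm.cst true
  | d + 1 => Fm.or (Fm.and (skipF n i) (T d (i + 1)))
      (orr (fun q => if h : q < d then Fm.and (pairF n i (i + 1 + q))
        (Fm.and (T q (i + 1)) (T (d - 1 - q) (i + q + 2))) else Fm.cst false) d)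
termination_by d
decreasing_by all_goals omega

/-- The product of the two inner segments. -/
def inn (d i q : ℕ) : Fm (Fin n × Fin 3) := Fm.and (T n q (i + 1)) (T n (d - 1 - q) (i + q + 2))

/-- One term. -/
def term (d i q : ℕ) : Fm (Fin n × Fin 3) :=
  if q < d then Fm.and (pairF n i (i + 1 + q)) (inn n d i q) else Fm.cst false

theorem T_zero (i : ℕ) : T n 0 i = Fm.cst true := by rw [T]

theorem T_succ (d i : ℕ) : T n (d + 1) i =
    Fm.or (Fm.and (skipF n i) (T n d (i + 1))) (orr (term n d i) d) := by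
  rw [T]
  rfl

/-! ### Values -/

variable {n}

theorem lt'_eval (z : Fin n × Fin 3 → Bool) {i : ℕ} (h : i < n) (c : Fin 3) (b : Bool) :
    (lt' n i c b).eval z = (z (⟨i, h⟩, c) == b) := by
  unfold lt'
  rw [dif_pos h]; rfl

theorem skip_iff (z : Fin n × Fin 3 → Bool) {i : ℕ} (h : i < n) :
    (skipF n i).eval z = true ↔ word z i = Letter.neutral := by
  unfold skipF word
  rw [dif_pos h]
  simp only [Fm.eval, lt'_eval z h]
  cases z (⟨i, h⟩, 0) <;> cases z (⟨i, h⟩, 1) <;> simp [letter]

theorem pair_iff (z : Fin n × Fin 3 → Bool) {i k : ℕ} (hi : i < n) (hk : k < n) :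
    (pairF n i k).eval z = true ↔
      ∃ t, word z i = Letter.opn t ∧ word z k = Letter.cls t := by
  unfold pairF ocF eqF sameF openF closeF word
  rw [dif_pos hi, dif_pos hk]
  simp only [Fm.eval, lt'_eval z hi, lt'_eval z hk]
  cases z (⟨i, hi⟩, 0) <;> cases z (⟨i, hi⟩, 1) <;> cases z (⟨i, hi⟩, 2) <;>
    cases z (⟨k, hk⟩, 0) <;> cases z (⟨k, hk⟩, 1) <;> cases z (⟨k, hk⟩, 2) <;> simp [letter]

theorem orr_eval {I : Type} (f : ℕ → Fm I) (z : I → Bool) (m : ℕ) :
    (orr f m).eval z = true ↔ ∃ q < m, (f q).eval z = true := by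
  induction m with
  | zero => simp [orr, Fm.eval]
  | succ m ih =>
    simp only [orr, Fm.eval, Bool.or_eq_true, ih]
    constructor
    · rintro (⟨q, h1, h2⟩ | h)
      · exact ⟨q, by omega, h2⟩
      · exact ⟨m, by omega, h⟩
    · rintro ⟨q, h1, h2⟩
      rcases Nat.lt_succ_iff_lt_or_eq.1 h1 with h | h
      · exact Or.inl ⟨q, h, h2⟩
      · rw [h] at h2; exact Or.inr h2

theorem bal_inv {w : ℕ → Letter} {i j : ℕ} (h : Bal w i j) :
    i = j ∨ (w i = Letter.neutral ∧ Bal w (i + 1) j) ∨
      ∃ k t, w i = Letter.opn t ∧ w k = Letter.cls t ∧ Bal w (i + 1) k ∧ Bal w (k + 1) j := by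
  cases h with
  | nil => exact Or.inl rfl
  | skip _ _ h1 h2 => exact Or.inr (Or.inl ⟨h1, h2⟩)
  | pair _ k _ t h1 h2 h3 h4 => exact Or.inr (Or.inr ⟨k, t, h1, h2, h3, h4⟩)

theorem T_eval (z : Fin n × Fin 3 → Bool) : ∀ d i : ℕ, i + d ≤ n →
    ((T n d i).eval z = true ↔ Bal (word z) i (i + d)) := by
  intro d
  induction d using Nat.strong_induction_on with
  | _ d ih =>
    intro i hi
    cases d with
    | zero =>
      rw [T_zero]
      simp only [Fm.eval, Nat.add_zero, true_iff]
      exact Bal.nil i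
    | succ d =>
      rw [T_succ]
      simp only [Fm.eval, Bool.or_eq_true, Bool.and_eq_true, orr_eval]
      rw [skip_iff z (by omega), ih d (by omega) (i + 1) (by omega)]
      have hterm : ∀ q < d, ((term n d i q).eval z = true ↔
          (∃ t, word z i = Letter.opn t ∧ word z (i + 1 + q) = Letter.cls t) ∧
            Bal (word z) (i + 1) (i + 1 + q) ∧ Bal (word z) (i + q + 2) (i + (d + 1))) := by
        intro q hq
        unfold term inn
        rw [if_pos hq]
        simp only [Fm.eval, Bool.and_eq_true]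
        rw [pair_iff z (by omega) (by omega), ih q (by omega) (i + 1) (by omega),
          ih (d - 1 - q) (by omega) (i + q + 2) (by omega)]
        rw [show i + q + 2 + (d - 1 - q) = i + (d + 1) by omega]
      have hsw : i + 1 + d = i + (d + 1) := by omega
      rw [hsw]
      constructor
      · rintro (⟨h1, h2⟩ | ⟨q, h1, h2⟩)
        · exact Bal.skip _ _ h1 h2
        · rw [hterm q h1] at h2
          obtain ⟨⟨t, h3, h4⟩, h5, h6⟩ := h2
          refine Bal.pair _ (i + 1 + q) _ t h3 h4 h5 ?_
          rw [show i + 1 + q + 1 = i + q + 2 by omega]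
          exact h6
      · intro h
        rcases bal_inv h with h | ⟨h1, h2⟩ | ⟨k, t, h1, h2, h3, h4⟩
        · omega
        · exact Or.inl ⟨h1, h2⟩
        · right
          have h5 := (bal_ht h3).1
          have h6 := (bal_ht h4).1
          refine ⟨k - (i + 1), by omega, ?_⟩
          rw [hterm _ (by omega)]
          rw [show i + 1 + (k - (i + 1)) = k by omega,
            show i + (k - (i + 1)) + 2 = k + 1 by omega]
          exact ⟨⟨t, h1, h2⟩, h3, h4⟩

/-! ### Degrees -/

theorem lt'_deg (v : Fin n × Fin 3) (i : ℕ) (c : Fin 3) (b : Bool) :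
    (lt' n i c b).deg v ≤ if (v.1 : ℕ) = i ∧ v.2 = c then 1 else 0 := by
  unfold lt'
  by_cases h : i < n
  · rw [dif_pos h]
    simp only [Fm.deg]
    by_cases hv : ((⟨i, h⟩ : Fin n), c) = v
    · rw [if_pos hv, if_pos (by rw [← hv]; exact ⟨rfl, rfl⟩)]
    · rw [if_neg hv]; exact Nat.zero_le _
  · rw [dif_neg h]; simp [Fm.deg]

theorem pairF_deg (v : Fin n × Fin 3) {i k : ℕ} :
    (pairF n i k).deg v ≤ (if (v.1 : ℕ) = i then 1 else 0) + (if (v.1 : ℕ) = k then 1 else 0) := by
  unfold pairF ocF eqF sameF openF closeF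
  simp only [Fm.deg]
  have a1 := lt'_deg v i 0 true
  have a2 := lt'_deg v i 1 false
  have a3 := lt'_deg v k 0 false
  have a4 := lt'_deg v k 1 true
  have a5 := lt'_deg v i 2 true
  have a6 := lt'_deg v k 2 true
  have a7 := lt'_deg v i 2 false
  have a8 := lt'_deg v k 2 false
  have h3 : v.2 = 0 ∨ v.2 = 1 ∨ v.2 = 2 := by
    generalize v.2 = c
    fin_cases c <;> simp
  by_cases hi : (v.1 : ℕ) = i <;> by_cases hk : (v.1 : ℕ) = k <;>
    rcases h3 with h | h | h <;> simp only [hi, hk, h] at a1 a2 a3 a4 a5 a6 a7 a8 ⊢ <;>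
    simp at a1 a2 a3 a4 a5 a6 a7 a8 ⊢ <;> omega

theorem skipF_deg (v : Fin n × Fin 3) {i : ℕ} :
    (skipF n i).deg v ≤ if (v.1 : ℕ) = i then 1 else 0 := by
  unfold skipF
  simp only [Fm.deg]
  have a1 := lt'_deg v i 0 false
  have a2 := lt'_deg v i 1 false
  have h3 : v.2 = 0 ∨ v.2 = 1 ∨ v.2 = 2 := by
    generalize v.2 = c
    fin_cases c <;> simp
  by_cases hi : (v.1 : ℕ) = i <;>
    rcases h3 with h | h | h <;> simp only [hi, h] at a1 a2 ⊢ <;>
    simp at a1 a2 ⊢ <;> omega

theorem orr_deg {I : Type} [DecidableEq I] (f : ℕ → Fm I) (v : I) (m B : ℕ)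
    (h : ∀ q < m, (f q).deg v ≤ B) : (orr f m).deg v ≤ B := by
  induction m with
  | zero => simp [orr, Fm.deg]
  | succ m ih =>
    simp only [orr, Fm.deg]
    exact max_le (ih fun q hq => h q (by omega)) (h m (by omega))

theorem T_deg (v : Fin n × Fin 3) : ∀ d i : ℕ,
    (T n d i).deg v ≤ if i ≤ (v.1 : ℕ) ∧ (v.1 : ℕ) < i + d then 1 else 0 := by
  intro d
  induction d using Nat.strong_induction_on with
  | _ d ih =>
    intro i
    cases d with
    | zero => rw [T_zero]; simp [Fm.deg]
    | succ d =>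
      rw [T_succ]
      simp only [Fm.deg]
      apply max_le
      · have h1 := skipF_deg v (i := i)
        have h2 := ih d (by omega) (i + 1)
        split_ifs at h1 h2 ⊢ <;> omega
      · apply orr_deg
        intro q hq
        unfold term inn
        rw [if_pos hq]
        simp only [Fm.deg]
        have h1 := pairF_deg v (i := i) (k := i + 1 + q)
        have h2 := ih q (by omega) (i + 1)
        have h3 := ih (d - 1 - q) (by omega) (i + q + 2)
        split_ifs at h1 h2 h3 ⊢ <;> omega

/-! ### Size -/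

variable (n)

/-- All formulas that occur. -/
def node : ℕ → ℕ → ℕ → ℕ → Fm (Fin n × Fin 3)
  | 0, a, _, _ => lt' n a 0 true
  | 1, a, _, _ => lt' n a 0 false
  | 2, a, _, _ => lt' n a 1 true
  | 3, a, _, _ => lt' n a 1 false
  | 4, a, _, _ => lt' n a 2 true
  | 5, a, _, _ => lt' n a 2 false
  | 6, _, _, _ => Fm.cst true
  | 7, _, _, _ => Fm.cst false
  | 8, a, _, _ => skipF n a
  | 9, a, _, _ => openF n a
  | 10, a, _, _ => closeF n a
  | 11, a, b, _ => sameF n true a b
  | 12, a, b, _ => sameF n false a b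
  | 13, a, b, _ => eqF n a b
  | 14, a, b, _ => ocF n a b
  | 15, a, b, _ => pairF n a b
  | 16, a, b, _ => T n a b
  | 17, a, b, _ => Fm.and (skipF n b) (T n a (b + 1))
  | 18, a, b, c => orr (term n a b) c
  | 19, a, b, c => inn n a b c
  | _, a, b, c => term n a b c

open Classical in
/-- The set of all formulas that occur. -/
noncomputable def Big : Finset (Fm (Fin n × Fin 3)) :=
  (range 21 ×ˢ (range (n + 1) ×ˢ (range (n + 1) ×ˢ range (n + 1)))).image
    fun p => node n p.1 p.2.1 p.2.2.1 p.2.2.2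

theorem big_card : (Big n).card ≤ 21 * (n + 1) ^ 3 := by
  classical
  refine card_image_le.trans ?_
  rw [card_product, card_product, card_product, card_range, card_range]
  apply le_of_eq
  ring

variable {n}

theorem mem_big (t a b c : ℕ) (ht : t < 21) (ha : a ≤ n) (hb : b ≤ n) (hc : c ≤ n) :
    node n t a b c ∈ Big n := by
  classical
  rw [Big, mem_image]
  refine ⟨(t, a, b, c), ?_, rfl⟩
  simp only [mem_product, mem_range]
  omega

theorem sub_lt' (i : ℕ) (c : Fin 3) (b : Bool) : sub (lt' n i c b) = {lt' n i c b} := by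
  unfold lt'
  by_cases h : i < n
  · rw [dif_pos h]; simp [sub]
  · rw [dif_neg h]; simp [sub]

theorem sub_and_subset {A B : Fm (Fin n × Fin 3)} {S : Finset (Fm (Fin n × Fin 3))}
    (h : Fm.and A B ∈ S) (hA : sub A ⊆ S) (hB : sub B ⊆ S) : sub (Fm.and A B) ⊆ S := by
  classical
  rw [sub, insert_subset_iff]
  exact ⟨h, union_subset hA hB⟩

theorem sub_or_subset {A B : Fm (Fin n × Fin 3)} {S : Finset (Fm (Fin n × Fin 3))}
    (h : Fm.or A B ∈ S) (hA : sub A ⊆ S) (hB : sub B ⊆ S) : sub (Fm.or A B) ⊆ S := by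
  classical
  rw [sub, insert_subset_iff]
  exact ⟨h, union_subset hA hB⟩

theorem sub_lt'_big {i : ℕ} (h : i ≤ n) (c : Fin 3) (b : Bool) : sub (lt' n i c b) ⊆ Big n := by
  rw [sub_lt', singleton_subset_iff]
  have h3 : c = 0 ∨ c = 1 ∨ c = 2 := by fin_cases c <;> simp
  rcases h3 with h3 | h3 | h3 <;> subst h3 <;> cases b
  · exact mem_big 1 i 0 0 (by norm_num) h (Nat.zero_le _) (Nat.zero_le _)
  · exact mem_big 0 i 0 0 (by norm_num) h (Nat.zero_le _) (Nat.zero_le _)
  · exact mem_big 3 i 0 0 (by norm_num) h (Nat.zero_le _) (Nat.zero_le _)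
  · exact mem_big 2 i 0 0 (by norm_num) h (Nat.zero_le _) (Nat.zero_le _)
  · exact mem_big 5 i 0 0 (by norm_num) h (Nat.zero_le _) (Nat.zero_le _)
  · exact mem_big 4 i 0 0 (by norm_num) h (Nat.zero_le _) (Nat.zero_le _)

theorem sub_skip {i : ℕ} (h : i ≤ n) : sub (skipF n i) ⊆ Big n :=
  sub_and_subset (mem_big 8 i 0 0 (by norm_num) h (Nat.zero_le _) (Nat.zero_le _))
    (sub_lt'_big h _ _) (sub_lt'_big h _ _)

theorem sub_pair {i k : ℕ} (hi : i ≤ n) (hk : k ≤ n) : sub (pairF n i k) ⊆ Big n := by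
  refine sub_and_subset (mem_big 15 i k 0 (by norm_num) hi hk (Nat.zero_le _)) ?_ ?_
  · refine sub_and_subset (mem_big 14 i k 0 (by norm_num) hi hk (Nat.zero_le _)) ?_ ?_
    · exact sub_and_subset (mem_big 9 i 0 0 (by norm_num) hi (Nat.zero_le _) (Nat.zero_le _))
        (sub_lt'_big hi _ _) (sub_lt'_big hi _ _)
    · exact sub_and_subset (mem_big 10 k 0 0 (by norm_num) hk (Nat.zero_le _) (Nat.zero_le _))
        (sub_lt'_big hk _ _) (sub_lt'_big hk _ _)
  · refine sub_or_subset (mem_big 13 i k 0 (by norm_num) hi hk (Nat.zero_le _)) ?_ ?_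
    · exact sub_and_subset (mem_big 11 i k 0 (by norm_num) hi hk (Nat.zero_le _))
        (sub_lt'_big hi _ _) (sub_lt'_big hk _ _)
    · exact sub_and_subset (mem_big 12 i k 0 (by norm_num) hi hk (Nat.zero_le _))
        (sub_lt'_big hi _ _) (sub_lt'_big hk _ _)

theorem sub_T : ∀ d i : ℕ, i + d ≤ n → sub (T n d i) ⊆ Big n := by
  intro d
  induction d using Nat.strong_induction_on with
  | _ d ih =>
    intro i hi
    cases d with
    | zero =>
      rw [T_zero]
      simp only [sub, singleton_subset_iff]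
      exact mem_big 6 0 0 0 (by norm_num) (Nat.zero_le _) (Nat.zero_le _) (Nat.zero_le _)
    | succ d =>
      have hT : T n (d + 1) i ∈ Big n :=
        mem_big 16 (d + 1) i 0 (by norm_num) (by omega) (by omega) (Nat.zero_le _)
      rw [T_succ] at hT ⊢
      refine sub_or_subset hT ?_ ?_
      · exact sub_and_subset (mem_big 17 d i 0 (by norm_num) (by omega) (by omega) (Nat.zero_le _))
          (sub_skip (by omega)) (ih d (by omega) (i + 1) (by omega))
      · have hterm : ∀ q < d, sub (term n d i q) ⊆ Big n := by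
          intro q hq
          have h20 : term n d i q ∈ Big n :=
            mem_big 20 d i q (by norm_num) (by omega) (by omega) (by omega)
          have h19 : inn n d i q ∈ Big n :=
            mem_big 19 d i q (by norm_num) (by omega) (by omega) (by omega)
          unfold term at h20 ⊢
          rw [if_pos hq] at h20 ⊢
          refine sub_and_subset h20 (sub_pair (by omega) (by omega)) ?_
          unfold inn at h19 ⊢
          exact sub_and_subset h19 (ih q (by omega) (i + 1) (by omega))
            (ih (d - 1 - q) (by omega) (i + q + 2) (by omega))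
        have horr : ∀ m ≤ d, sub (orr (term n d i) m) ⊆ Big n := by
          intro m
          induction m with
          | zero =>
            intro _
            simp only [orr, sub, singleton_subset_iff]
            exact mem_big 7 0 0 0 (by norm_num) (Nat.zero_le _) (Nat.zero_le _) (Nat.zero_le _)
          | succ m ihm =>
            intro hm
            have h18 : orr (term n d i) (m + 1) ∈ Big n :=
              mem_big 18 d i (m + 1) (by norm_num) (by omega) (by omega) (by omega)
            exact sub_or_subset h18 (ihm (by omega)) (hterm m (by omega))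
        exact horr d le_rfl

/-- **Upper bound.** -/
theorem upper (n : ℕ) : ∃ C : Ckt (Fin n × Fin 3), C.size ≤ 21 * (n + 1) ^ 3 ∧
    (∀ v, C.deg v ≤ 1) ∧ ∀ z, (C.eval z = true ↔ Dyck z) := by
  refine ⟨share (T n n 0), ?_, fun v => ?_, fun z => ?_⟩
  · rw [share_size]
    exact (card_le_card (sub_T n 0 (by omega))).trans (big_card n)
  · unfold Ckt.deg
    rw [share_out]
    exact (T_deg v n 0).trans (by split_ifs <;> omega)
  · unfold Ckt.eval
    rw [share_out, T_eval z n 0 (by omega), Nat.zero_add]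
    rfl

end Pool.Agent.TH708.Dec
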